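import Pool.Agent.Run7.h347.Iface

set_option autoImplicit false

/-! Piece BOUNDARY of the project MP_33f4db_gt (helper347): in a torsion-free uniform lattice every
nontrivial element is hyperbolic, and its attracting fixed point attracts the whole orbit of that
point. -/

open Topology MatrixGroups Filter

namespace Run7.h270

open Run7.h347

/-! ### Displacement -/

lemma cosh_dist_smul (A : SL(2, ℝ)) (z : UpperHalfPlane) :
    Real.cosh (dist z (A • z)) = 1 + Complex.normSq ((A 1 0 : ℂ) * (z : ℂ) ^ 2 +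
      ((A 1 1 : ℂ) - (A 0 0 : ℂ)) * z - (A 0 1 : ℂ)) / (2 * z.im ^ 2) := by
  rw [UpperHalfPlane.cosh_dist]
  congr 1
  have hden : (A 1 0 : ℂ) * z + (A 1 1 : ℂ) ≠ 0 := by
    have := UpperHalfPlane.denom_ne_zero (A : GL (Fin 2) ℝ) z
    simpa [UpperHalfPlane.denom] using this
  have hz := z.im_pos
  have him : (A • z).im = z.im / Complex.normSq ((A 1 0 : ℂ) * z + (A 1 1 : ℂ)) := by
    have := UpperHalfPlane.im_smul_eq_div_normSq (A : GL (Fin 2) ℝ) z
    change ((A : GL (Fin 2) ℝ) • z).im = _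
    simpa [UpperHalfPlane.denom] using this
  have hco : ((A • z : UpperHalfPlane) : ℂ) =
      ((A 0 0 : ℂ) * z + (A 0 1 : ℂ)) / ((A 1 0 : ℂ) * z + (A 1 1 : ℂ)) := by
    have := UpperHalfPlane.coe_specialLinearGroup_apply A z
    simpa using this
  have hn : Complex.normSq ((A 1 0 : ℂ) * z + (A 1 1 : ℂ)) ≠ 0 := by
    simpa [Complex.normSq_eq_zero] using hden
  have hd : dist (z : ℂ) ((A • z : UpperHalfPlane) : ℂ) ^ 2 =
      Complex.normSq ((A 1 0 : ℂ) * (z : ℂ) ^ 2 +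
      ((A 1 1 : ℂ) - (A 0 0 : ℂ)) * z - (A 0 1 : ℂ)) /
        Complex.normSq ((A 1 0 : ℂ) * z + (A 1 1 : ℂ)) := by
    rw [hco, Complex.dist_eq, Complex.sq_norm, ← Complex.normSq_div]
    congr 1
    rw [eq_div_iff hden, sub_mul, div_mul_cancel₀ _ hden]
    ring
  rw [hd, him]
  field_simp

/-- an element of `SL(2, ℝ)` with trace of absolute value at most two has arbitrarily small
displacement -/
lemma exists_small_dist (A : SL(2, ℝ)) (hA : |(A 0 0 : ℝ) + A 1 1| ≤ 2) (δ : ℝ) (hδ : 0 < δ) :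
    ∃ z : UpperHalfPlane, dist z (A • z) < δ := by
  set η : ℝ := Real.cosh δ - 1 with hη
  have hη0 : 0 < η := by
    have := Real.one_lt_cosh.2 hδ.ne'
    linarith
  have key : ∀ z : UpperHalfPlane, Complex.normSq ((A 1 0 : ℂ) * (z : ℂ) ^ 2 +
      ((A 1 1 : ℂ) - (A 0 0 : ℂ)) * z - (A 0 1 : ℂ)) / (2 * z.im ^ 2) < η →
      dist z (A • z) < δ := by
    intro z hz
    have h1 : Real.cosh (dist z (A • z)) < Real.cosh δ := by
      rw [cosh_dist_smul]
      linarith
    rw [Real.cosh_lt_cosh, abs_of_nonneg dist_nonneg, abs_of_pos hδ] at h1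
    exact h1
  have hdet : (A 0 0 : ℝ) * A 1 1 - A 0 1 * A 1 0 = 1 := by
    have := A.det_coe
    rwa [Matrix.det_fin_two] at this
  set a : ℝ := A 0 0
  set b : ℝ := A 0 1
  set c : ℝ := A 1 0
  set d : ℝ := A 1 1
  have htr : (a + d) ^ 2 ≤ 4 := by
    have := abs_le.1 hA
    nlinarith
  by_cases hc : c = 0
  · have hda : d = a := by
      rw [hc] at hdet
      have : (a - d) ^ 2 ≤ 0 := by nlinarith
      have : a - d = 0 := by
        have := le_antisymm this (sq_nonneg _)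
        exact pow_eq_zero_iff (two_ne_zero) |>.1 this
      linarith
    have hy : 0 < Real.sqrt (b ^ 2 / η + 1) := Real.sqrt_pos.2 (by positivity)
    refine ⟨⟨⟨0, Real.sqrt (b ^ 2 / η + 1)⟩, hy⟩, key _ ?_⟩
    have h2 : (Real.sqrt (b ^ 2 / η + 1)) ^ 2 = b ^ 2 / η + 1 := Real.sq_sqrt (by positivity)
    have him : (UpperHalfPlane.mk ⟨0, Real.sqrt (b ^ 2 / η + 1)⟩ hy).im =
        Real.sqrt (b ^ 2 / η + 1) := rfl
    rw [him, h2, hc, hda]
    have h3 : Complex.normSq (((0 : ℝ) : ℂ) *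
        ((UpperHalfPlane.mk ⟨0, Real.sqrt (b ^ 2 / η + 1)⟩ hy : UpperHalfPlane) : ℂ) ^ 2 +
        ((a : ℂ) - (a : ℂ)) *
        ((UpperHalfPlane.mk ⟨0, Real.sqrt (b ^ 2 / η + 1)⟩ hy : UpperHalfPlane) : ℂ)
        - (b : ℂ)) = b ^ 2 := by
      simp [Complex.normSq_apply, sq]
    rw [h3, div_lt_iff₀ (by positivity)]
    have : η * (2 * (b ^ 2 / η + 1)) = 2 * b ^ 2 + 2 * η := by
      field_simp
    rw [this]
    nlinarith [sq_nonneg b]
  · set x : ℝ := (a - d) / (2 * c) with hx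
    set s : ℝ := η / c ^ 2 with hs
    have hc2 : 0 < c ^ 2 := by positivity
    have hs0 : 0 < s := by positivity
    set Y : ℝ := (4 - (a + d) ^ 2) / (4 * c ^ 2) + s with hY
    have hYs : s ≤ Y := by
      have : 0 ≤ (4 - (a + d) ^ 2) / (4 * c ^ 2) := by
        apply div_nonneg <;> nlinarith
      linarith
    have hY0 : 0 < Y := by linarith
    have hy : 0 < Real.sqrt Y := Real.sqrt_pos.2 hY0
    have h2 : (Real.sqrt Y) ^ 2 = Y := Real.sq_sqrt hY0.le
    refine ⟨⟨⟨x, Real.sqrt Y⟩, hy⟩, key _ ?_⟩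
    have him : (UpperHalfPlane.mk ⟨x, Real.sqrt Y⟩ hy).im = Real.sqrt Y := rfl
    rw [him, h2]
    have h3 : ((c : ℂ) * ((UpperHalfPlane.mk ⟨x, Real.sqrt Y⟩ hy : UpperHalfPlane) : ℂ) ^ 2 +
        ((d : ℂ) - (a : ℂ)) * ((UpperHalfPlane.mk ⟨x, Real.sqrt Y⟩ hy : UpperHalfPlane) : ℂ)
        - (b : ℂ)) = ((-(c * s) : ℝ) : ℂ) := by
      have hcx : 2 * c * x = a - d := by
        rw [hx]
        field_simp
      apply Complex.ext
      · have e1 : (((c : ℂ) * (⟨x, Real.sqrt Y⟩ : ℂ) ^ 2 +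
            ((d : ℂ) - (a : ℂ)) * (⟨x, Real.sqrt Y⟩ : ℂ) - (b : ℂ))).re =
            c * (x ^ 2 - (Real.sqrt Y) ^ 2) + (d - a) * x - b := by
          simp [sq]
        have e2 : c * (x ^ 2 - (Real.sqrt Y) ^ 2) + (d - a) * x - b = -(c * s) := by
          rw [h2, hY, hx]
          field_simp
          nlinarith [hdet]
        exact e1.trans (by rw [e2, Complex.ofReal_re])
      · have e1 : (((c : ℂ) * (⟨x, Real.sqrt Y⟩ : ℂ) ^ 2 +
            ((d : ℂ) - (a : ℂ)) * (⟨x, Real.sqrt Y⟩ : ℂ) - (b : ℂ))).im =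
            (2 * c * x + (d - a)) * Real.sqrt Y := by
          simp [sq]
          ring
        refine e1.trans ?_
        rw [hcx, Complex.ofReal_im]
        ring
    have h4 : Complex.normSq ((c : ℂ) *
        ((UpperHalfPlane.mk ⟨x, Real.sqrt Y⟩ hy : UpperHalfPlane) : ℂ) ^ 2 +
        ((d : ℂ) - (a : ℂ)) * ((UpperHalfPlane.mk ⟨x, Real.sqrt Y⟩ hy : UpperHalfPlane) : ℂ)
        - (b : ℂ)) = c ^ 2 * s ^ 2 := by
      rw [h3, Complex.normSq_ofReal]
      ring
    rw [h4, div_lt_iff₀ (by positivity)]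
    have h5 : c ^ 2 * s = η := by
      rw [hs]
      field_simp
    have h6 : c ^ 2 * s ^ 2 = η * s := by rw [← h5]; ring
    rw [h6]
    nlinarith

/-! ### Free action and minimal displacement -/

section Lattice

variable {G : Type} [Group G] {ρ : G →* SL(2, ℝ)}

lemma eq_one_of_fixed (hL : IsUniformLattice ρ)
    (htf : ∀ (g : G) (n : ℕ), 0 < n → g ^ n = 1 → g = 1) (g : G) (z : UpperHalfPlane)
    (hz : ρ g • z = z) : g = 1 := by
  by_contra hg
  have hfin := hL.proper {z} isCompact_singleton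
  have hpow : ∀ n : ℕ, ρ (g ^ n) • z = z := by
    intro n
    induction n with
    | zero => simp
    | succ n ih => rw [pow_succ, map_mul, mul_smul, hz, ih]
  have hinj : Function.Injective (fun n : ℕ => g ^ n) := by
    rw [injective_pow_iff_not_isOfFinOrder, isOfFinOrder_iff_pow_eq_one]
    rintro ⟨n, hn, h⟩
    exact hg (htf g n hn h)
  refine Set.infinite_range_of_injective hinj (hfin.subset ?_)
  rintro _ ⟨n, rfl⟩
  exact ⟨z, ⟨z, rfl, hpow n⟩, rfl⟩

omit [Group G] in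
lemma finite_pos {F : Set G} (hF : F.Finite) (m : G → ℝ) (hm : ∀ h ∈ F, 0 < m h) :
    ∃ δ : ℝ, 0 < δ ∧ ∀ h ∈ F, δ ≤ m h := by
  induction F, hF using Set.Finite.induction_on with
  | empty => exact ⟨1, one_pos, by simp⟩
  | insert _ _ ih =>
    obtain ⟨δ, hδ, h⟩ := ih (fun h hh => hm h (Set.mem_insert_of_mem _ hh))
    refine ⟨min δ (m _), lt_min hδ (hm _ (Set.mem_insert _ _)), ?_⟩
    intro h' hh'
    rcases hh' with rfl | hh'
    · exact min_le_right _ _
    · exact (min_le_left _ _).trans (h _ hh')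

lemma min_displacement (hL : IsUniformLattice ρ)
    (htf : ∀ (g : G) (n : ℕ), 0 < n → g ^ n = 1 → g = 1) :
    ∃ δ : ℝ, 0 < δ ∧ ∀ h : G, h ≠ 1 → ∀ z : UpperHalfPlane, δ ≤ dist z (ρ h • z) := by
  obtain ⟨K, hK, hco⟩ := hL.cocompact
  have hne : K.Nonempty := by
    obtain ⟨g, hg⟩ := hco UpperHalfPlane.I
    exact ⟨_, hg⟩
  have hK' : IsCompact (Metric.cthickening 1 K) := hK.cthickening
  have hfin := hL.proper _ hK'
  set F := {g : G | (((fun z : UpperHalfPlane => ρ g • z) '' (Metric.cthickening 1 K)) ∩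
    (Metric.cthickening 1 K)).Nonempty} with hF
  have hcont : ∀ h : G, Continuous (fun w : UpperHalfPlane => dist w (ρ h • w)) := by
    intro h
    exact continuous_id.dist (continuous_const_smul (ρ h))
  have hmin : ∀ h : G, ∃ m : ℝ, (h ≠ 1 → 0 < m) ∧ ∀ w ∈ K, m ≤ dist w (ρ h • w) := by
    intro h
    obtain ⟨w, hw, hmin⟩ := hK.exists_isMinOn hne (hcont h).continuousOn
    refine ⟨dist w (ρ h • w), ?_, fun w' hw' => hmin hw'⟩
    intro hh
    refine dist_pos.2 fun hw' => hh (eq_one_of_fixed hL htf h w hw'.symm)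
  choose m hm0 hm using hmin
  obtain ⟨δ, hδ, hδm⟩ := finite_pos (F := F \ {1}) (hfin.subset Set.sdiff_subset) m
    (fun h hh => hm0 h hh.2)
  have hK1 : ∀ h : G, h ≠ 1 → ∀ w ∈ K, min δ 1 ≤ dist w (ρ h • w) := by
    intro h hh w hw
    by_cases hhF : h ∈ F
    · exact (min_le_left _ _).trans ((hδm h ⟨hhF, hh⟩).trans (hm h w hw))
    · by_contra hlt
      rw [not_le] at hlt
      apply hhF
      have hw' : w ∈ Metric.cthickening 1 K := Metric.self_subset_cthickening K hw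
      refine ⟨ρ h • w, ⟨w, hw', rfl⟩, ?_⟩
      refine Metric.mem_cthickening_of_dist_le _ w 1 K hw ?_
      rw [dist_comm]
      exact (hlt.trans_le (min_le_right _ _)).le
  refine ⟨min δ 1, lt_min hδ one_pos, ?_⟩
  intro h hh z
  obtain ⟨g, hg⟩ := hco z
  have hh' : g * h * g⁻¹ ≠ 1 := by
    intro h1
    apply hh
    have : h = g⁻¹ * (g * h * g⁻¹) * g := by group
    rw [this, h1]
    group
  have := hK1 (g * h * g⁻¹) hh' _ hg
  have h2 : ρ (g * h * g⁻¹) • ρ g • z = ρ g • ρ h • z := by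
    rw [← mul_smul, ← mul_smul, ← map_mul, ← map_mul]
    congr 2
    group
  rw [h2, dist_smul] at this
  exact this

/-- every nontrivial element is hyperbolic -/
lemma two_lt_trace (hL : IsUniformLattice ρ)
    (htf : ∀ (g : G) (n : ℕ), 0 < n → g ^ n = 1 → g = 1) (h : G)
    (hh : |(ρ h 0 0 : ℝ) + ρ h 1 1| ≤ 2) : h = 1 := by
  by_contra hne
  obtain ⟨δ, hδ, hmin⟩ := min_displacement hL htf
  obtain ⟨z, hz⟩ := exists_small_dist (ρ h) hh δ hδ
  exact absurd (hmin h hne z) (not_le.2 hz)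

end Lattice

/-! ### The projective line -/

/-- the point of the projective line with homogeneous coordinates `w` -/
noncomputable def qq (w : Fin 2 → ℝ) : OnePoint ℝ :=
  if w 1 = 0 then OnePoint.infty else ((w 0 / w 1 : ℝ) : OnePoint ℝ)

lemma smul_qq (g : GL (Fin 2) ℝ) (w : Fin 2 → ℝ) (hw : w ≠ 0) :
    g • qq w = qq (g.val.mulVec w) := by
  have hdet : (g.val 0 0) * (g.val 1 1) - g.val 0 1 * g.val 1 0 ≠ 0 := by
    have := g.det_ne_zero
    rwa [Matrix.det_fin_two] at this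
  unfold qq
  by_cases h1 : w 1 = 0
  · have h0 : w 0 ≠ 0 := by
      intro h0
      apply hw
      ext i
      fin_cases i
      · exact h0
      · exact h1
    rw [if_pos h1, OnePoint.smul_infty_eq_ite]
    by_cases hc : g.val 1 0 = 0
    · simp [hc, h1]
    · simp only [Matrix.mulVec_fin_two, h1, mul_zero, add_zero, Matrix.cons_val_zero,
        Matrix.cons_val_one, mul_eq_zero, hc, h0, or_self, if_false]
      congr 1
      field_simp
  · rw [if_neg h1, OnePoint.smul_some_eq_ite]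
    have e1 : g.val 1 0 * (w 0 / w 1) + g.val 1 1 = (g.val 1 0 * w 0 + g.val 1 1 * w 1) / w 1 := by
      field_simp
    have e2 : g.val 0 0 * (w 0 / w 1) + g.val 0 1 = (g.val 0 0 * w 0 + g.val 0 1 * w 1) / w 1 := by
      field_simp
    by_cases hc : g.val 1 0 * w 0 + g.val 1 1 * w 1 = 0
    · simp [e1, hc]
    · have hc' : (g.val 1 0 * w 0 + g.val 1 1 * w 1) / w 1 ≠ 0 := div_ne_zero hc h1
      simp only [Matrix.mulVec_fin_two, Matrix.cons_val_zero, Matrix.cons_val_one]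
      rw [if_neg hc]
      rw [if_neg (by rw [e1]; exact hc'), e1, e2]
      congr 1
      field_simp

lemma exists_qq (x : OnePoint ℝ) : ∃ w : Fin 2 → ℝ, w ≠ 0 ∧ x = qq w := by
  induction x using OnePoint.rec with
  | infty =>
    refine ⟨![1, 0], ?_, ?_⟩
    · intro h
      have := congr_fun h 0
      simp at this
    · simp [qq]
  | coe t =>
    refine ⟨![t, 1], ?_, ?_⟩
    · intro h
      have := congr_fun h 1
      simp at this
    · simp [qq]

lemma qq_smul (c : ℝ) (hc : c ≠ 0) (w : Fin 2 → ℝ) : qq (c • w) = qq w := by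
  unfold qq
  by_cases h1 : w 1 = 0
  · simp [h1]
  · have : c * w 1 ≠ 0 := mul_ne_zero hc h1
    simp only [Pi.smul_apply, smul_eq_mul, if_neg h1, if_neg this]
    congr 1
    field_simp

lemma tendsto_qq {w : ℕ → Fin 2 → ℝ} {u : Fin 2 → ℝ} (hu : u ≠ 0)
    (h : Tendsto w atTop (𝓝 u)) : Tendsto (fun n => qq (w n)) atTop (𝓝 (qq u)) := by
  have h0 : Tendsto (fun n => w n 0) atTop (𝓝 (u 0)) := (tendsto_pi_nhds.1 h) 0
  have h1 : Tendsto (fun n => w n 1) atTop (𝓝 (u 1)) := (tendsto_pi_nhds.1 h) 1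
  by_cases hu1 : u 1 = 0
  · have hu0 : u 0 ≠ 0 := by
      intro h0
      apply hu
      ext i
      fin_cases i
      · exact h0
      · exact hu1
    have hq : qq u = OnePoint.infty := by simp [qq, hu1]
    rw [hq, OnePoint.hasBasis_nhds_infty.tendsto_right_iff]
    rintro s ⟨-, hs⟩
    obtain ⟨R, hR⟩ := hs.isBounded.exists_norm_le
    have hR' : ∀ x ∈ s, |x| ≤ R := hR
    have hb : 0 < |u 0| / 2 := by positivity
    have e0 : ∀ᶠ n in atTop, |u 0| / 2 < |w n 0| := by
      have := h0.abs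
      exact this.eventually (lt_mem_nhds (by linarith))
    have e1 : ∀ᶠ n in atTop, |w n 1| * (|R| + 1) < |u 0| / 2 := by
      have := (h1.abs).mul_const (|R| + 1)
      rw [hu1, abs_zero, zero_mul] at this
      exact this.eventually (gt_mem_nhds hb)
    filter_upwards [e0, e1] with n h2 h3
    by_cases hw : w n 1 = 0
    · right
      simp [qq, hw]
    · left
      refine ⟨w n 0 / w n 1, ?_, ?_⟩
      · intro hmem
        have h4 := hR' _ hmem
        rw [abs_div, div_le_iff₀ (abs_pos.2 hw)] at h4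
        have h5 : |w n 1| * (|R| + 1) ≥ R * |w n 1| := by
          have := le_abs_self R
          have := abs_nonneg (w n 1)
          nlinarith
        linarith
      · simp [qq, hw]
  · have hq : qq u = ((u 0 / u 1 : ℝ) : OnePoint ℝ) := by simp [qq, hu1]
    rw [hq]
    have h2 : Tendsto (fun n => ((w n 0 / w n 1 : ℝ) : OnePoint ℝ)) atTop
        (𝓝 ((u 0 / u 1 : ℝ) : OnePoint ℝ)) :=
      (OnePoint.continuous_coe.tendsto _).comp (h0.div h1 hu1)
    refine h2.congr' ?_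
    have e1 : ∀ᶠ n in atTop, w n 1 ≠ 0 := h1.eventually_ne hu1
    filter_upwards [e1] with n hn
    simp [qq, hn]

/-! ### Linear algebra in the plane -/

lemma exists_eigen (t : ℝ) (ht : 2 < |t|) : ∃ l m : ℝ, l + m = t ∧ l * m = 1 ∧ m ^ 2 < l ^ 2 := by
  have h4 : 4 < t ^ 2 := by
    rw [← sq_abs]
    nlinarith
  have hr : 0 < Real.sqrt (t ^ 2 - 4) := Real.sqrt_pos.2 (by linarith)
  have hr2 : Real.sqrt (t ^ 2 - 4) ^ 2 = t ^ 2 - 4 := Real.sq_sqrt (by linarith)
  rcases lt_or_ge 0 t with h | h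
  · refine ⟨(t + Real.sqrt (t ^ 2 - 4)) / 2, (t - Real.sqrt (t ^ 2 - 4)) / 2, by ring, ?_, ?_⟩
    · nlinarith
    · nlinarith [mul_pos h hr]
  · have h0 : t < 0 := by
      rcases h.lt_or_eq with h | h
      · exact h
      · rw [h] at h4; norm_num at h4
    refine ⟨(t - Real.sqrt (t ^ 2 - 4)) / 2, (t + Real.sqrt (t ^ 2 - 4)) / 2, by ring, ?_, ?_⟩
    · nlinarith
    · nlinarith [mul_pos_of_neg_of_neg h0 (neg_lt_zero.2 hr)]

lemma exists_eigenvector (M : Matrix (Fin 2) (Fin 2) ℝ) (l : ℝ)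
    (hl : (M 0 0 - l) * (M 1 1 - l) - M 0 1 * M 1 0 = 0) :
    ∃ u : Fin 2 → ℝ, u ≠ 0 ∧ M.mulVec u = l • u := by
  have : (M - l • (1 : Matrix (Fin 2) (Fin 2) ℝ)).det = 0 := by
    rw [Matrix.det_fin_two]
    simpa using hl
  obtain ⟨u, hu, h⟩ := Matrix.exists_mulVec_eq_zero_iff.2 this
  refine ⟨u, hu, ?_⟩
  rw [Matrix.sub_mulVec, Matrix.smul_mulVec, Matrix.one_mulVec, sub_eq_zero] at h
  exact h

/-- the determinant of two vectors -/
def cr (u v : Fin 2 → ℝ) : ℝ := u 0 * v 1 - u 1 * v 0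

lemma cramer (u v w : Fin 2 → ℝ) : cr u v • w = cr w v • u + cr u w • v := by
  ext i
  fin_cases i
  · simp [cr]; ring
  · simp [cr]; ring

lemma cr_ne {M : Matrix (Fin 2) (Fin 2) ℝ} {l m : ℝ} {u v : Fin 2 → ℝ} (hlm : l ≠ m)
    (hu : u ≠ 0) (hv : v ≠ 0) (hMu : M.mulVec u = l • u) (hMv : M.mulVec v = m • v) :
    cr u v ≠ 0 := by
  intro h
  have key : ∀ w : Fin 2 → ℝ, cr w v • u + cr u w • v = 0 := by
    intro w
    rw [← cramer, h, zero_smul]
  have key2 : ∀ w : Fin 2 → ℝ, (l - m) • (cr u w • v) = 0 := by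
    intro w
    have h1 := key w
    have h2 : M.mulVec (cr w v • u + cr u w • v) = 0 := by rw [h1, Matrix.mulVec_zero]
    rw [Matrix.mulVec_add, Matrix.mulVec_smul, Matrix.mulVec_smul, hMu, hMv] at h2
    have h3 : cr w v • u = - (cr u w • v) := eq_neg_of_add_eq_zero_left h1
    have h4 : cr w v • l • u = - (l • cr u w • v) := by
      rw [smul_comm, h3, smul_neg]
    rw [h4] at h2
    have h5 : (l - m) • (cr u w • v) = -(-(l • cr u w • v) + cr u w • m • v) := by
      rw [sub_smul, smul_comm m (cr u w) v]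
      abel
    rw [h5, h2, neg_zero]
  have hlm' : l - m ≠ 0 := sub_ne_zero.2 hlm
  have h6 : ∀ w : Fin 2 → ℝ, cr u w = 0 := by
    intro w
    have := key2 w
    rcases smul_eq_zero.1 this with h | h
    · exact absurd h hlm'
    · rcases smul_eq_zero.1 h with h | h
      · exact h
      · exact absurd h hv
  apply hu
  ext i
  fin_cases i
  · have := h6 ![0, 1]
    simpa [cr] using this
  · have := h6 ![1, 0]
    simpa [cr] using this

lemma pow_mulVec {M : Matrix (Fin 2) (Fin 2) ℝ} {l : ℝ} {u : Fin 2 → ℝ}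
    (h : M.mulVec u = l • u) (n : ℕ) : (M ^ n).mulVec u = l ^ n • u := by
  induction n with
  | zero => simp
  | succ n ih =>
    rw [pow_succ, ← Matrix.mulVec_mulVec, h, Matrix.mulVec_smul, ih, smul_smul, pow_succ]
    congr 1
    ring

lemma trace_eq_two {M : Matrix (Fin 2) (Fin 2) ℝ} (hdet : M.det = 1) {v : Fin 2 → ℝ}
    (hv : v ≠ 0) (h : M.mulVec v = v) : M 0 0 + M 1 1 = 2 := by
  have h0 : (M - 1).det = 0 := by
    rw [← Matrix.exists_mulVec_eq_zero_iff]
    exact ⟨v, hv, by rw [Matrix.sub_mulVec, h, Matrix.one_mulVec, sub_self]⟩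
  rw [Matrix.det_fin_two] at h0 hdet
  simp at h0
  linarith

/-- Piece BOUNDARY. -/
theorem statementBoundary : Run7.h347.StatementBoundary := by
  intro G _ ρ hL htf d hd
  have hhyp : ∀ h : G, |(ρ h 0 0 : ℝ) + ρ h 1 1| ≤ 2 → h = 1 := two_lt_trace hL htf
  have hdetA : ((ρ d : Matrix (Fin 2) (Fin 2) ℝ) 0 0) * (ρ d : Matrix (Fin 2) (Fin 2) ℝ) 1 1 -
      (ρ d : Matrix (Fin 2) (Fin 2) ℝ) 0 1 * (ρ d : Matrix (Fin 2) (Fin 2) ℝ) 1 0 = 1 := by
    have := (ρ d).det_coe
    rwa [Matrix.det_fin_two] at this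
  have ht : 2 < |(ρ d 0 0 : ℝ) + ρ d 1 1| := by
    by_contra h
    exact hd (hhyp d (not_lt.1 h))
  obtain ⟨l, m, hlm, hlm1, hml⟩ := exists_eigen _ ht
  obtain ⟨u, hu, hAu⟩ := exists_eigenvector (ρ d : Matrix (Fin 2) (Fin 2) ℝ) l (by
    linear_combination hdetA + l * hlm - hlm1)
  obtain ⟨v, hv, hAv⟩ := exists_eigenvector (ρ d : Matrix (Fin 2) (Fin 2) ℝ) m (by
    linear_combination hdetA + m * hlm - hlm1)
  have hne : l ≠ m := by
    rintro rfl
    exact lt_irrefl _ hml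
  have hl0 : l ≠ 0 := by
    rintro rfl
    simp at hlm1
  have hm0 : m ≠ 0 := by
    rintro rfl
    simp at hlm1
  have hcr : cr u v ≠ 0 := cr_ne hne hu hv hAu hAv
  have hb : ∀ g : G, bdry ρ g (qq u) = qq ((ρ g : Matrix (Fin 2) (Fin 2) ℝ).mulVec u) := by
    intro g
    exact smul_qq (Matrix.SpecialLinearGroup.toGL (ρ g)) u hu
  refine ⟨qq u, ?_, ?_⟩
  · rw [hb, hAu, qq_smul l hl0]
  intro g
  set B : Matrix (Fin 2) (Fin 2) ℝ := (ρ g : Matrix (Fin 2) (Fin 2) ℝ) with hB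
  -- the image of the attracting point is not the repelling point
  have hα : cr (B.mulVec u) v ≠ 0 := by
    intro h0
    have h1 : cr u v • B.mulVec u = cr u (B.mulVec u) • v := by
      rw [cramer, h0, zero_smul, zero_add]
    set β : ℝ := (cr u v)⁻¹ * cr u (B.mulVec u) with hβ
    have h2 : B.mulVec u = β • v := by
      rw [hβ, mul_smul, ← h1, smul_smul, inv_mul_cancel₀ hcr, one_smul]
    have hinv : ((ρ g)⁻¹ : SL(2, ℝ)).val * B = 1 := by
      rw [hB, ← Matrix.SpecialLinearGroup.coe_mul, inv_mul_cancel, Matrix.SpecialLinearGroup.coe_one]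
    have hβ0 : β ≠ 0 := by
      intro hz
      apply hu
      have : (((ρ g)⁻¹ : SL(2, ℝ)).val * B).mulVec u = 0 := by
        rw [← Matrix.mulVec_mulVec, h2, hz, zero_smul, Matrix.mulVec_zero]
      rwa [hinv, Matrix.one_mulVec] at this
    have h3 : ((ρ g)⁻¹ : SL(2, ℝ)).val.mulVec v = β⁻¹ • u := by
      have h4 : v = β⁻¹ • B.mulVec u := by
        rw [h2, smul_smul, inv_mul_cancel₀ hβ0, one_smul]
      rw [h4, Matrix.mulVec_smul, Matrix.mulVec_mulVec, hinv, Matrix.one_mulVec]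
    have h5 : (ρ (d * (g * d * g⁻¹)) : Matrix (Fin 2) (Fin 2) ℝ).mulVec v = v := by
      rw [map_mul, map_mul, map_mul, map_inv, Matrix.SpecialLinearGroup.coe_mul,
        Matrix.SpecialLinearGroup.coe_mul, Matrix.SpecialLinearGroup.coe_mul,
        ← Matrix.mulVec_mulVec, ← Matrix.mulVec_mulVec, ← Matrix.mulVec_mulVec, h3, ← hB]
      simp only [Matrix.mulVec_smul, hAu, h2, hAv, smul_smul]
      have : β⁻¹ * l * β * m = 1 := by
        field_simp
        linarith
      rw [this, one_smul]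
    have h6 := trace_eq_two (ρ (d * (g * d * g⁻¹))).det_coe hv h5
    have h7 : d * (g * d * g⁻¹) = 1 := hhyp _ (by rw [h6]; norm_num)
    have h8 : g * d = d⁻¹ * g := by
      have : g * d = d⁻¹ * (d * (g * d * g⁻¹)) * g := by group
      rw [this, h7, mul_one]
    have h9 : B * (ρ d : Matrix (Fin 2) (Fin 2) ℝ) =
        ((ρ d)⁻¹ : SL(2, ℝ)).val * B := by
      rw [hB, ← Matrix.SpecialLinearGroup.coe_mul, ← Matrix.SpecialLinearGroup.coe_mul,
        ← map_mul, h8, map_mul, map_inv]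
    rw [Matrix.SpecialLinearGroup.coe_inv, Matrix.adjugate_fin_two] at h9
    have e00 := congr_fun (congr_fun h9 0) 0
    have e01 := congr_fun (congr_fun h9 0) 1
    have e10 := congr_fun (congr_fun h9 1) 0
    have e11 := congr_fun (congr_fun h9 1) 1
    simp [Matrix.mul_apply, Fin.sum_univ_two] at e00 e01 e10 e11
    set a : ℝ := (ρ d : Matrix (Fin 2) (Fin 2) ℝ) 0 0
    set b : ℝ := (ρ d : Matrix (Fin 2) (Fin 2) ℝ) 0 1
    set c : ℝ := (ρ d : Matrix (Fin 2) (Fin 2) ℝ) 1 0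
    set e : ℝ := (ρ d : Matrix (Fin 2) (Fin 2) ℝ) 1 1
    have htrB : B 0 0 + B 1 1 = 0 := by
      by_contra hne0
      have hb0 : b = 0 := by
        have : (B 0 0 + B 1 1) * b = 0 := by linarith
        exact (mul_eq_zero.1 this).resolve_left hne0
      have hc0 : c = 0 := by
        have : (B 0 0 + B 1 1) * c = 0 := by linarith
        exact (mul_eq_zero.1 this).resolve_left hne0
      have hae : a - e = 0 := by
        have : (B 0 0 + B 1 1) * (a - e) = 0 := by linarith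
        exact (mul_eq_zero.1 this).resolve_left hne0
      have hea : e = a := by linarith
      rw [hb0, hea] at hdetA
      rw [hea] at ht
      have h10 : |a + a| ^ 2 = 4 := by
        rw [sq_abs]
        nlinarith
      nlinarith [abs_nonneg (a + a)]
    have hg1 : g = 1 := hhyp g (by
      rw [← hB, htrB]
      norm_num)
    have hB1 : B = 1 := by rw [hB, hg1, map_one, Matrix.SpecialLinearGroup.coe_one]
    rw [hB1, Matrix.one_mulVec] at h0
    exact hcr h0
  -- the dynamics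
  set α : ℝ := (cr u v)⁻¹ * cr (B.mulVec u) v with hα'
  have hα0 : α ≠ 0 := mul_ne_zero (inv_ne_zero hcr) hα
  set β : ℝ := (cr u v)⁻¹ * cr u (B.mulVec u) with hβ'
  have hBu : B.mulVec u = α • u + β • v := by
    have := cramer u v (B.mulVec u)
    rw [hα', hβ', mul_smul, mul_smul, ← smul_add, ← this, smul_smul, inv_mul_cancel₀ hcr, one_smul]
  have hval : ∀ n : ℕ, bdry ρ (d ^ n * g) (qq u) = qq (u + (β / α * (m / l) ^ n) • v) := by
    intro n
    have h1 : (ρ (d ^ n * g) : Matrix (Fin 2) (Fin 2) ℝ).mulVec u =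
        (α * l ^ n) • (u + (β / α * (m / l) ^ n) • v) := by
      rw [map_mul, map_pow, Matrix.SpecialLinearGroup.coe_mul, Matrix.SpecialLinearGroup.coe_pow,
        ← Matrix.mulVec_mulVec, ← hB, hBu, Matrix.mulVec_add, Matrix.mulVec_smul,
        Matrix.mulVec_smul, pow_mulVec hAu, pow_mulVec hAv, smul_add, smul_smul, smul_smul,
        smul_smul]
      congr 2
      rw [div_pow]
      field_simp
    rw [hb, h1, qq_smul _ (mul_ne_zero hα0 (pow_ne_zero _ hl0))]
  simp_rw [hval]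
  apply tendsto_qq hu
  have hq : |m / l| < 1 := by
    rw [abs_div, div_lt_one (abs_pos.2 hl0)]
    exact sq_lt_sq.1 hml
  have h1 : Tendsto (fun n : ℕ => (m / l) ^ n) atTop (𝓝 0) :=
    tendsto_pow_atTop_nhds_zero_of_abs_lt_one hq
  have h2 : Tendsto (fun n : ℕ => u + (β / α * (m / l) ^ n) • v) atTop
      (𝓝 (u + (β / α * 0) • v)) :=
    tendsto_const_nhds.add ((h1.const_mul _).smul_const _)
  simpa using h2

end Run7.h270
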