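import Mathlib

set_option autoImplicit false

namespace Run7.h270

open Polynomial Module

noncomputable section

variable {K : Type*} [Field K]

theorem aeval_semiconj {V : Type*} [AddCommGroup V] [Module K V] (f g d : End K V)
    (h : g * d = d * f) (q : K[X]) : aeval g q * d = d * aeval f q := by
  induction q using Polynomial.induction_on' with
  | add p q hp hq => rw [map_add, map_add, add_mul, mul_add, hp, hq]
  | monomial n a =>
    have hn : g ^ n * d = d * f ^ n := by
      induction n with
      | zero => simp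
      | succ n ih => rw [pow_succ, mul_assoc, h, ← mul_assoc, ih, mul_assoc, ← pow_succ]
    rw [← C_mul_X_pow_eq_monomial]
    simp only [map_mul, aeval_C, map_pow, aeval_X]
    rw [mul_assoc, hn, ← mul_assoc, ← mul_assoc, Algebra.commutes]

/-- An invertible endomorphism of a finite dimensional space which is conjugate to all of its
positive powers is unipotent. -/
theorem unip {V : Type*} [AddCommGroup V] [Module K V] [FiniteDimensional K V] (f : End K V)
    (hf : Function.Injective f)
    (hd : ∀ n : ℕ, 1 ≤ n → ∃ d : End K V, Function.Injective d ∧ f ^ n * d = d * f) :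
    IsNilpotent (f - 1) := by
  classical
  set μ := minpoly K f with hμ
  have hint : IsIntegral K f := Algebra.IsIntegral.isIntegral f
  have hmonic : μ.Monic := minpoly.monic hint
  have hdvd : ∀ n : ℕ, 1 ≤ n → μ ∣ μ.comp (X ^ n) := by
    intro n hn
    obtain ⟨d, hdi, hd⟩ := hd n hn
    apply minpoly.dvd
    rw [aeval_comp]
    simp only [map_pow, aeval_X]
    have h1 := aeval_semiconj f (f ^ n) d hd μ
    rw [hμ, minpoly.aeval, mul_zero, ← hμ] at h1
    have hsurj : Function.Surjective d := LinearMap.injective_iff_surjective.1 hdi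
    ext v
    obtain ⟨w, rfl⟩ := hsurj v
    exact LinearMap.congr_fun h1 w
  have h0 : μ.coeff 0 ≠ 0 := by
    intro h0
    have hr : μ.IsRoot 0 := by rw [Polynomial.IsRoot, ← coeff_zero_eq_eval_zero, h0]
    have hev : f.HasEigenvalue 0 := Module.End.hasEigenvalue_of_isRoot hr
    obtain ⟨v, hv⟩ := hev.exists_hasEigenvector
    have h2 : f v = 0 := by simpa using hv.apply_eq_smul
    exact hv.2 (hf (by rw [h2, map_zero]))
  let L := AlgebraicClosure K
  set ν : L[X] := μ.map (algebraMap K L) with hν
  have hν0 : ν ≠ 0 := (hmonic.map _).ne_zero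
  have hroot : ∀ a ∈ ν.roots, ∃ N : ℕ, 1 ≤ N ∧ a ^ N = 1 := by
    intro a ha
    have hpow : ∀ n : ℕ, a ^ (n + 1) ∈ ν.roots.toFinset := by
      intro n
      rw [Multiset.mem_toFinset, mem_roots hν0]
      have h1 : ν ∣ ν.comp (X ^ (n + 1)) := by
        have := Polynomial.map_dvd (algebraMap K L) (hdvd (n + 1) (by omega))
        rwa [Polynomial.map_comp, Polynomial.map_pow, Polynomial.map_X] at this
      have h2 : (ν.comp (X ^ (n + 1))).IsRoot a := (isRoot_of_mem_roots ha).dvd h1
      simpa [Polynomial.IsRoot, eval_comp] using h2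
    have ha0 : a ≠ 0 := by
      rintro rfl
      have h1 : ν.eval 0 = 0 := isRoot_of_mem_roots ha
      rw [← coeff_zero_eq_eval_zero, hν, coeff_map] at h1
      exact h0 (by simpa using h1)
    obtain ⟨m, n, hmn, he⟩ : ∃ m n : ℕ, m < n ∧ a ^ (m + 1) = a ^ (n + 1) := by
      have hninj : ¬ Function.Injective (fun n : ℕ => (⟨a ^ (n + 1), hpow n⟩ : ν.roots.toFinset)) :=
        not_injective_infinite_finite _
      simp only [Function.Injective, not_forall] at hninj
      obtain ⟨x, y, hxy, hne⟩ := hninj
      have hxy' : a ^ (x + 1) = a ^ (y + 1) := congrArg Subtype.val hxy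
      rcases lt_or_gt_of_ne hne with h | h
      · exact ⟨x, y, h, hxy'⟩
      · exact ⟨y, x, h, hxy'.symm⟩
    refine ⟨n - m, by omega, ?_⟩
    have h3 : a ^ (m + 1) * a ^ (n - m) = a ^ (m + 1) * 1 := by
      rw [← pow_add, mul_one, he]; congr 1; omega
    exact mul_left_cancel₀ (pow_ne_zero _ ha0) h3
  choose! No hN1 hN2 using hroot
  set N := ∏ a ∈ ν.roots.toFinset, No a with hN
  have hNpos : 1 ≤ N := by
    apply Nat.one_le_iff_ne_zero.2
    rw [hN, Finset.prod_ne_zero_iff]
    intro a ha
    have := hN1 a (Multiset.mem_toFinset.1 ha)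
    omega
  have hNroot : ∀ a ∈ ν.roots, (X - C a) ∣ (X ^ N - 1 : L[X]) := by
    intro a ha
    rw [dvd_iff_isRoot]
    have h1 : No a ∣ N := Finset.dvd_prod_of_mem _ (Multiset.mem_toFinset.2 ha)
    obtain ⟨c, hc⟩ := h1
    show (X ^ N - 1 : L[X]).eval a = 0
    simp [hc, pow_mul, hN2 a ha]
  have hdvd2 : ν ∣ (X ^ N - 1) ^ (Multiset.card ν.roots) := by
    have hs : ν.Splits := IsAlgClosed.splits ν
    have h1 : ν = (ν.roots.map (fun a => X - C a)).prod := by
      exact (hs.eq_prod_roots_of_monic (hmonic.map _))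
    have h2 : ∀ s : Multiset L, (∀ a ∈ s, (X - C a) ∣ (X ^ N - 1 : L[X])) →
        (s.map (fun a => X - C a)).prod ∣ (X ^ N - 1) ^ (Multiset.card s) := by
      intro s
      induction s using Multiset.induction_on with
      | empty => intro _; simp
      | cons a s ih =>
        intro hs
        rw [Multiset.map_cons, Multiset.prod_cons, Multiset.card_cons, pow_succ']
        exact mul_dvd_mul (hs a (Multiset.mem_cons_self _ _))
          (ih fun b hb => hs b (Multiset.mem_cons_of_mem hb))
    conv_lhs => rw [h1]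
    exact h2 _ hNroot
  have hdvd3 : μ ∣ (X ^ N - 1) ^ (Multiset.card ν.roots) := by
    rw [← Polynomial.map_dvd_map' (algebraMap K L)]
    simpa using hdvd2
  have hnil : (f ^ N - 1) ^ (Multiset.card ν.roots) = 0 := by
    obtain ⟨c, hc⟩ := hdvd3
    have := congrArg (aeval f) hc
    rw [map_mul, hμ, minpoly.aeval, zero_mul] at this
    simpa using this
  obtain ⟨d, hdi, hd⟩ := hd N hNpos
  have h5 := aeval_semiconj (f - 1) (f ^ N - 1) d (by
    rw [sub_mul, mul_sub, hd, one_mul, mul_one]) (X ^ (Multiset.card ν.roots))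
  simp only [map_pow, aeval_X] at h5
  rw [hnil, zero_mul] at h5
  refine ⟨Multiset.card ν.roots, ?_⟩
  ext v
  apply hdi
  have := LinearMap.congr_fun h5.symm v
  simpa using this

/-- Binomial coefficient as a polynomial. -/
def chooseP (K : Type*) [Field K] (j : ℕ) : K[X] := C ((j.factorial : K)⁻¹) * descPochhammer K j

theorem chooseP_eval [CharZero K] (j n : ℕ) : (chooseP K j).eval (n : K) = (n.choose j : K) := by
  rw [chooseP, eval_mul, eval_C, descPochhammer_eval_eq_descFactorial,
    Nat.descFactorial_eq_factorial_mul_choose]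
  push_cast
  rw [← mul_assoc, inv_mul_cancel₀ (by exact_mod_cast Nat.factorial_ne_zero j), one_mul]

/-- Matrix coefficients of the powers of a unipotent endomorphism are polynomial functions. -/
theorem unip_poly [CharZero K] {V : Type*} [AddCommGroup V] [Module K V] (f : End K V)
    (hf : IsNilpotent (f - 1)) (φ : V →ₗ[K] K) (w : V) :
    ∃ q : K[X], ∀ n : ℕ, φ ((f ^ n) w) = q.eval (n : K) := by
  obtain ⟨m, hm⟩ := hf
  refine ⟨∑ j ∈ Finset.range m, C (φ (((f - 1) ^ j) w)) * chooseP K j, fun n => ?_⟩
  rw [eval_finsetSum]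
  simp only [eval_mul, eval_C, chooseP_eval]
  have h1 : f ^ n = ∑ j ∈ Finset.range (n + 1), (f - 1) ^ j * (n.choose j : End K V) := by
    have : f = (f - 1) + 1 := by simp
    conv_lhs => rw [this]
    rw [(Commute.one_right (f - 1)).add_pow]
    simp
  have h2 : ∀ M, n + 1 ≤ M → f ^ n = ∑ j ∈ Finset.range M, (f - 1) ^ j * (n.choose j : End K V) := by
    intro M hM
    rw [h1]
    apply Finset.sum_subset (Finset.range_mono hM)
    intro j _ hj
    rw [Finset.mem_range, not_lt] at hj
    rw [Nat.choose_eq_zero_of_lt (by omega)]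
    simp
  have h3 : f ^ n = ∑ j ∈ Finset.range m, (f - 1) ^ j * (n.choose j : End K V) := by
    rw [h2 (max m (n + 1)) (le_max_right _ _)]
    symm
    apply Finset.sum_subset (Finset.range_mono (le_max_left _ _))
    intro j _ hj
    rw [Finset.mem_range, not_lt] at hj
    rw [pow_eq_zero_of_le hj hm, zero_mul]
  rw [h3, LinearMap.sum_apply, map_sum]
  apply Finset.sum_congr rfl
  intro j _
  have h4 : ((f - 1) ^ j * (n.choose j : End K V)) w = (n.choose j : K) • ((f - 1) ^ j) w := by
    rw [← nsmul_eq_mul', LinearMap.smul_apply, Nat.cast_smul_eq_nsmul]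
  rw [h4, map_smul, smul_eq_mul, mul_comm]

end

end Run7.h270
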