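import Pool.Agent.Run7.h270.Weight
import Pool.Agent.Run7.h270.Unip

set_option autoImplicit false

namespace Run7.h270

open FreeAlgebra Polynomial Module

noncomputable section

variable {K : Type*} [Field K]

local instance decW' : DecidableEq (FreeMonoid (Fin 3)) := Classical.decEq _

variable (u : K → (FreeAlgebra K (Fin 3) ≃ₐ[K] FreeAlgebra K (Fin 3)))
  (hu : ∀ a b, u (a + b) = u a * u b)
  (θ : (Fin 3 → Kˣ) → (Fin 3 → Kˣ)) (χ : (Fin 3 → Kˣ) → Kˣ) (hχ : Function.Surjective χ)
  (hc : ∀ t b, diag (θ t) * u b * (diag (θ t))⁻¹ = u ((χ t : K) * b))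

include hu in
theorem u_zero : u 0 = 1 := by
  have := hu 0 0
  rw [add_zero] at this
  exact (mul_eq_left.1 this.symm)

/-- The coefficient function. -/
def hh (i : Fin 3) (v : FreeMonoid (Fin 3)) (b : K) : K := cf v (u b (ι K i))

include hc in
theorem hh_smul (i : Fin 3) (v : FreeMonoid (Fin 3)) (t : Fin 3 → Kˣ) (b : K) :
    hh u i v ((χ t : K) * b) = (wt (θ t) v : K) * (θ t i : K)⁻¹ * hh u i v b := by
  rw [hh, hh, ← hc t b]
  simp only [AlgEquiv.mul_apply, diag_inv, diag_ι, Pi.inv_apply, map_smul, cf_diag]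
  rw [Units.val_inv_eq_inv_val, smul_eq_mul]
  ring

include hu in
theorem hh_zero (i : Fin 3) (v : FreeMonoid (Fin 3)) :
    hh u i v 0 = if FreeMonoid.of i = v then 1 else 0 := by
  rw [hh, u_zero u hu, AlgEquiv.one_apply, ← wp_of, cf_wp]

include hu in
theorem u_nat (n : ℕ) : u (n : K) = (u 1) ^ n := by
  induction n with
  | zero => simp [u_zero u hu]
  | succ n ih => rw [Nat.cast_succ, hu, ih, pow_succ]

include hu hχ hc in
theorem hh_poly [CharZero K] (i : Fin 3) (v : FreeMonoid (Fin 3)) :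
    ∃ q : K[X], ∀ n : ℕ, hh u i v (n : K) = q.eval (n : K) := by
  -- the finite dimensional space
  set V : Submodule K (FreeAlgebra K (Fin 3)) :=
    Submodule.span K (Set.range fun n : ℕ => u (n : K) (ι K i)) with hV
  have hVle : V ≤ Submodule.span K
      ((fun w => (wp w : FreeAlgebra K (Fin 3))) ''
        (supp (u 1 (ι K i)) ∪ {FreeMonoid.of i} : Finset (FreeMonoid (Fin 3)))) := by
    rw [hV, Submodule.span_le]
    rintro _ ⟨n, rfl⟩
    have hsub : supp (u (n : K) (ι K i)) ⊆ supp (u 1 (ι K i)) ∪ {FreeMonoid.of i} := by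
      intro w hw
      rw [mem_supp] at hw
      rw [Finset.mem_union, mem_supp, Finset.mem_singleton]
      by_cases hn : n = 0
      · right
        subst hn
        rw [Nat.cast_zero] at hw
        have := hh_zero u hu i w
        rw [hh] at this
        rw [this] at hw
        by_contra h
        rw [if_neg (Ne.symm h)] at hw
        exact hw rfl
      · left
        intro h0
        apply hw
        obtain ⟨t, ht⟩ := hχ (Units.mk0 (n : K) (by exact_mod_cast hn))
        have h1 := hh_smul u θ χ hc i w t 1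
        rw [ht, mul_one] at h1
        simp only [hh, Units.val_mk0, h0, mul_zero] at h1
        exact h1
    show u (n : K) (ι K i) ∈ _
    rw [eq_sum_supp (u (n : K) (ι K i)) _ hsub]
    apply Submodule.sum_mem
    intro w hw
    exact Submodule.smul_mem _ _ (Submodule.subset_span ⟨w, hw, rfl⟩)
  have hfd : FiniteDimensional K (Submodule.span K
      ((fun w => (wp w : FreeAlgebra K (Fin 3))) ''
        (supp (u 1 (ι K i)) ∪ {FreeMonoid.of i} : Finset (FreeMonoid (Fin 3))))) :=
    FiniteDimensional.span_of_finite K (Set.Finite.image _ (Finset.finite_toSet _))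
  have : FiniteDimensional K V := Submodule.finiteDimensional_of_le hVle
  have hg : ∀ x ∈ V, (u 1).toLinearMap x ∈ V := by
    intro x hx
    have : V.map (u 1).toLinearMap ≤ V := by
      rw [hV, Submodule.map_span, Submodule.span_le]
      rintro _ ⟨_, ⟨n, rfl⟩, rfl⟩
      apply Submodule.subset_span
      refine ⟨n + 1, ?_⟩
      simp only [AlgEquiv.toLinearMap_apply]
      rw [← AlgEquiv.mul_apply, ← hu]
      push_cast
      rw [add_comm]
    exact this ⟨x, hx, rfl⟩
  have hδ : ∀ (t : Fin 3 → Kˣ) (m : ℕ), (χ t : K) = m →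
      ∀ x ∈ V, (diag (θ t) : FreeAlgebra K (Fin 3) ≃ₐ[K] _).toLinearMap x ∈ V := by
    intro t m hm x hx
    have : V.map (diag (θ t) : FreeAlgebra K (Fin 3) ≃ₐ[K] _).toLinearMap ≤ V := by
      rw [hV, Submodule.map_span, Submodule.span_le]
      rintro _ ⟨_, ⟨n, rfl⟩, rfl⟩
      simp only [AlgEquiv.toLinearMap_apply, SetLike.mem_coe]
      have h1 : diag (θ t) (u (n : K) (ι K i)) = (θ t i : K) • u ((m * n : ℕ) : K) (ι K i) := by
        have h2 := hc t n
        rw [mul_inv_eq_iff_eq_mul] at h2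
        have h3 := DFunLike.congr_fun h2 (ι K i)
        simp only [AlgEquiv.mul_apply, diag_ι, map_smul] at h3
        rw [h3, hm]
        push_cast
        rfl
      rw [h1]
      exact Submodule.smul_mem _ _ (Submodule.subset_span ⟨_, rfl⟩)
    exact this ⟨x, hx, rfl⟩
  set f : End K V := (u 1).toLinearMap.restrict hg with hf
  have hfn : ∀ (n : ℕ) (x : V), ((f ^ n) x : FreeAlgebra K (Fin 3)) = u (n : K) x := by
    intro n
    induction n with
    | zero => intro x; simp [u_zero u hu]
    | succ n ih =>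
      intro x
      rw [pow_succ, Module.End.mul_apply, ih, Nat.cast_succ, hu, AlgEquiv.mul_apply]
      rfl
  have hnil : IsNilpotent (f - 1) := by
    apply unip
    · intro x y hxy
      apply Subtype.ext
      apply (u 1).injective
      exact congrArg Subtype.val hxy
    · intro n hn
      obtain ⟨t, ht⟩ := hχ (Units.mk0 (n : K) (by exact_mod_cast (by omega : n ≠ 0)))
      have ht' : (χ t : K) = n := by rw [ht]; rfl
      refine ⟨(diag (θ t) : FreeAlgebra K (Fin 3) ≃ₐ[K] _).toLinearMap.restrict (hδ t n ht'),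
        ?_, ?_⟩
      · intro x y hxy
        apply Subtype.ext
        apply (diag (θ t) : FreeAlgebra K (Fin 3) ≃ₐ[K] _).injective
        exact congrArg Subtype.val hxy
      · ext x
        rw [Module.End.mul_apply, hfn, Module.End.mul_apply]
        have h2 := hc t 1
        rw [mul_inv_eq_iff_eq_mul, mul_one, ht'] at h2
        exact (DFunLike.congr_fun h2 (x : FreeAlgebra K (Fin 3))).symm
  have hmem : ι K i ∈ V := by
    apply Submodule.subset_span
    refine ⟨0, ?_⟩
    simp [u_zero u hu]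
  obtain ⟨q, hq⟩ := unip_poly f hnil ((cf v).comp V.subtype) ⟨ι K i, hmem⟩
  refine ⟨q, fun n => ?_⟩
  rw [← hq n]
  simp only [LinearMap.comp_apply, Submodule.subtype_apply, hfn]
  rfl

include hu hχ hc in
/-- Each coefficient function that occurs is a power on the natural numbers. -/
theorem hh_pow [CharZero K] (i : Fin 3) (v : FreeMonoid (Fin 3)) (h1 : hh u i v 1 ≠ 0) :
    ∃ r : ℕ, ∀ n : ℕ, hh u i v (n : K) = hh u i v 1 * (n : K) ^ r := by
  obtain ⟨q, hq⟩ := hh_poly u hu θ χ hχ hc i v
  set c := hh u i v 1 with hcdef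
  have hmul : ∀ m n : ℕ, 1 ≤ m → hh u i v ((m * n : ℕ) : K) * c = hh u i v m * hh u i v n := by
    intro m n hm
    obtain ⟨t, ht⟩ := hχ (Units.mk0 (m : K) (by exact_mod_cast (by omega : m ≠ 0)))
    have ht' : (χ t : K) = m := by rw [ht]; rfl
    have e1 := hh_smul u θ χ hc i v t n
    have e2 := hh_smul u θ χ hc i v t 1
    rw [ht'] at e1 e2
    rw [mul_one] at e2
    push_cast
    rw [e1, e2]
    ring
  have hq1 : q.eval 1 = c := by
    have := hq 1
    rw [Nat.cast_one] at this
    exact this.symm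
  have hq0 : q ≠ 0 := by
    rintro rfl
    rw [eval_zero] at hq1
    exact h1 hq1.symm
  have hinf : (Set.range fun n : ℕ => (n : K)).Infinite :=
    Set.infinite_range_of_injective Nat.cast_injective
  have hpoly : ∀ m : ℕ, 1 ≤ m → q.eval (m : K) = c * (m : K) ^ q.natDegree := by
    intro m hm
    have hid : q.comp (C (m : K) * X) * C c = C (q.eval (m : K)) * q := by
      apply Polynomial.eq_of_infinite_eval_eq
      apply hinf.mono
      rintro _ ⟨n, rfl⟩
      simp only [Set.mem_ofPred_eq, eval_mul, eval_comp, eval_C, eval_X]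
      have := hmul m n hm
      rw [hq, hq, hq] at this
      push_cast at this
      exact this
    have h2 := congrArg (fun p => p.coeff q.natDegree) hid
    simp only [coeff_mul_C, comp_C_mul_X_coeff, coeff_C_mul, coeff_natDegree] at h2
    have hl : q.leadingCoeff ≠ 0 := leadingCoeff_ne_zero.2 hq0
    apply mul_left_cancel₀ hl
    rw [mul_comm q.leadingCoeff (q.eval (m : K)), ← h2]
    ring
  refine ⟨q.natDegree, fun n => ?_⟩
  have hid : q = C c * X ^ q.natDegree := by
    apply Polynomial.eq_of_infinite_eval_eq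
    have hinf2 : (Set.range fun n : ℕ => ((n + 1 : ℕ) : K)).Infinite :=
      Set.infinite_range_of_injective (fun a b hab => by
        have := Nat.cast_injective hab
        omega)
    apply hinf2.mono
    rintro _ ⟨n, rfl⟩
    simp only [Set.mem_ofPred_eq, eval_mul, eval_C, eval_pow, eval_X]
    exact hpoly (n + 1) (by omega)
  rw [hq n]
  conv_lhs => rw [hid]
  simp

include hu hχ hc in
theorem hh_self [CharZero K] (i : Fin 3) (b : K) : hh u i (FreeMonoid.of i) b = 1 := by
  have h0 := hh_zero u hu i (FreeMonoid.of i)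
  rw [if_pos rfl] at h0
  have h1 : hh u i (FreeMonoid.of i) 1 ≠ 0 := by
    intro h1
    obtain ⟨q, hq⟩ := hh_poly u hu θ χ hχ hc i (FreeMonoid.of i)
    have hz : q = 0 := by
      apply Polynomial.eq_zero_of_infinite_isRoot
      have hinf2 : (Set.range fun n : ℕ => ((n + 1 : ℕ) : K)).Infinite :=
        Set.infinite_range_of_injective (fun a b hab => by
          have := Nat.cast_injective hab
          omega)
      apply hinf2.mono
      rintro _ ⟨n, rfl⟩
      show q.eval _ = 0
      rw [← hq]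
      obtain ⟨t, ht⟩ := hχ (Units.mk0 ((n + 1 : ℕ) : K) (by exact_mod_cast (by omega : n + 1 ≠ 0)))
      have ht' : (χ t : K) = ((n + 1 : ℕ) : K) := by rw [ht]; rfl
      have e2 := hh_smul u θ χ hc i (FreeMonoid.of i) t 1
      rw [ht', mul_one, h1, mul_zero] at e2
      exact e2
    have := hq 0
    rw [hz, Nat.cast_zero, h0, eval_zero] at this
    exact one_ne_zero this
  obtain ⟨r, hr⟩ := hh_pow u hu θ χ hχ hc i _ h1
  have hr0 := hr 0
  rw [Nat.cast_zero, h0] at hr0
  have hrz : r = 0 := by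
    by_contra hne
    rw [zero_pow hne, mul_zero] at hr0
    exact one_ne_zero hr0
  rw [hrz, pow_zero, mul_one] at hr0
  by_cases hb : b = 0
  · rw [hb, h0]
  · obtain ⟨t, ht⟩ := hχ (Units.mk0 b hb)
    have ht' : (χ t : K) = b := by rw [ht]; rfl
    have e2 := hh_smul u θ χ hc i (FreeMonoid.of i) t 1
    rw [ht', mul_one, ← hr0, mul_one] at e2
    rw [e2]
    simp [wt]

include hu hχ hc in
theorem hh_of_zero (i : Fin 3) (v : FreeMonoid (Fin 3)) (hv : v ≠ FreeMonoid.of i)
    (h1 : hh u i v 1 = 0) (b : K) : hh u i v b = 0 := by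
  by_cases hb : b = 0
  · rw [hb, hh_zero u hu, if_neg (Ne.symm hv)]
  · obtain ⟨t, ht⟩ := hχ (Units.mk0 b hb)
    have ht' : (χ t : K) = b := by rw [ht]; rfl
    have e2 := hh_smul u θ χ hc i v t 1
    rw [ht', mul_one, h1, mul_zero] at e2
    exact e2

include hu hχ hc in
theorem hh_scale [CharZero K] (i : Fin 3) (v : FreeMonoid (Fin 3)) (hv : v ≠ FreeMonoid.of i) :
    ∃ r : ℕ, 1 ≤ r ∧ ∀ (n : ℕ) (b : K), hh u i v ((n : K) * b) = (n : K) ^ r * hh u i v b := by
  by_cases h1 : hh u i v 1 = 0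
  · refine ⟨1, le_refl _, fun n b => ?_⟩
    rw [hh_of_zero u hu θ χ hχ hc i v hv h1, hh_of_zero u hu θ χ hχ hc i v hv h1, mul_zero]
  · obtain ⟨r, hr⟩ := hh_pow u hu θ χ hχ hc i v h1
    have hr0 := hr 0
    rw [Nat.cast_zero, hh_zero u hu, if_neg (Ne.symm hv)] at hr0
    have hr1 : r ≠ 0 := by
      rintro rfl
      rw [pow_zero, mul_one] at hr0
      exact h1 hr0.symm
    refine ⟨r, Nat.one_le_iff_ne_zero.2 hr1, fun n b => ?_⟩
    by_cases hb : b = 0
    · rw [hb, mul_zero, hh_zero u hu, if_neg (Ne.symm hv), mul_zero]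
    · obtain ⟨t, ht⟩ := hχ (Units.mk0 b hb)
      have ht' : (χ t : K) = b := by rw [ht]; rfl
      have e1 := hh_smul u θ χ hc i v t n
      have e2 := hh_smul u θ χ hc i v t 1
      rw [ht'] at e1 e2
      rw [mul_one] at e2
      rw [mul_comm (n : K) b, e1, e2, hr]
      ring

theorem ev_C' (c : K) (a : FreeAlgebra K (Fin 3)) : ev c (C a) = a := eval₂_C _ _

theorem ev_X_pow_mul (c : K) (r : ℕ) (p : (FreeAlgebra K (Fin 3))[X]) :
    ev c (X ^ r * p) = c ^ r • ev c p := by
  have : ev c (X : (FreeAlgebra K (Fin 3))[X]) = algebraMap K _ c := eval₂_X _ _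
  rw [map_mul, map_pow, this, ← map_pow, Algebra.smul_def]

/-- The words other than `x_i` that occur in `u 1 x_i`. -/
def Sx (i : Fin 3) : Finset (FreeMonoid (Fin 3)) := supp (u 1 (ι K i)) \ {FreeMonoid.of i}

theorem mem_Sx {i : Fin 3} {v : FreeMonoid (Fin 3)} :
    v ∈ Sx u i ↔ hh u i v 1 ≠ 0 ∧ v ≠ FreeMonoid.of i := by
  rw [Sx, Finset.mem_sdiff, mem_supp, Finset.mem_singleton]
  rfl

include hu hχ hc in
theorem u_sub [CharZero K] (i : Fin 3) (c : K) :
    u c (ι K i) - ι K i = ∑ v ∈ Sx u i, hh u i v c • wp v := by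
  apply ext_cf
  intro w
  rw [map_sub, map_sum]
  simp only [map_smul, cf_wp, smul_eq_mul, mul_ite, mul_one, mul_zero, Finset.sum_ite_eq']
  rw [← wp_of, cf_wp]
  have hw : cf w (u c (wp (FreeMonoid.of i))) = hh u i w c := by rw [hh, wp_of]
  rw [hw]
  by_cases h : w = FreeMonoid.of i
  · subst h
    rw [hh_self u hu θ χ hχ hc, if_pos rfl, if_neg, sub_self]
    rw [mem_Sx]
    exact fun h => h.2 rfl
  · rw [if_neg (Ne.symm h), sub_zero]
    by_cases h1 : hh u i w 1 = 0
    · rw [hh_of_zero u hu θ χ hχ hc i w h h1]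
      simp
    · rw [if_pos ((mem_Sx u).2 ⟨h1, h⟩)]

include hu hχ hc in
/-- `u (n b) a - a` is divisible by `n ^ r` as a polynomial function of `n`. -/
theorem pd [CharZero K] (R : Fin 3 → FreeMonoid (Fin 3) → ℕ)
    (hR : ∀ i v, v ≠ FreeMonoid.of i → ∀ (n : ℕ) (b : K),
      hh u i v ((n : K) * b) = (n : K) ^ (R i v) * hh u i v b)
    (r : ℕ) (hr : ∀ i v, v ≠ FreeMonoid.of i → hh u i v 1 ≠ 0 → r ≤ R i v)
    (b : K) (a : FreeAlgebra K (Fin 3)) :
    ∃ p : (FreeAlgebra K (Fin 3))[X], ∀ n : ℕ,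
      u ((n : K) * b) a - a = (n : K) ^ r • ev (n : K) p := by
  induction a with
  | grade0 c =>
    refine ⟨0, fun n => ?_⟩
    rw [AlgEquiv.commutes, sub_self, map_zero, smul_zero]
  | grade1 i =>
    refine ⟨∑ v ∈ Sx u i, X ^ (R i v - r) * C (hh u i v b • wp v), fun n => ?_⟩
    rw [u_sub u hu θ χ hχ hc, map_sum, Finset.smul_sum]
    apply Finset.sum_congr rfl
    intro v hv
    rw [mem_Sx] at hv
    rw [hR i v hv.2, ev_X_pow_mul, ev_C', smul_smul, smul_smul, ← pow_add,
      Nat.add_sub_cancel' (hr i v hv.2 hv.1)]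
  | mul a b iha ihb =>
    obtain ⟨p, hp⟩ := iha
    obtain ⟨q, hq⟩ := ihb
    refine ⟨p * (C b + X ^ r * q) + C a * q, fun n => ?_⟩
    have e1 := hp n
    have e2 := hq n
    rw [sub_eq_iff_eq_add] at e1 e2
    rw [map_mul, e1, e2, map_add, map_mul, map_mul, map_add, ev_C', ev_C', ev_X_pow_mul]
    simp only [smul_add, mul_add, add_mul, smul_mul_assoc, mul_smul_comm]
    abel
  | add a b iha ihb =>
    obtain ⟨p, hp⟩ := iha
    obtain ⟨q, hq⟩ := ihb
    refine ⟨p + q, fun n => ?_⟩
    rw [map_add, map_add, smul_add, ← hp, ← hq]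
    abel

include hu hχ hc in
/-- The additive weight lemma. -/
theorem add_weight [CharZero K] (h1 : u 1 ≠ 1) :
    ∃ (i : Fin 3) (v : FreeMonoid (Fin 3)) (τ : K →+* K),
      ∀ t, τ (χ t : K) = (wt (θ t) v : K) * (θ t i : K)⁻¹ := by
  have hR : ∀ i v, ∃ r : ℕ, v ≠ FreeMonoid.of i → 1 ≤ r ∧ ∀ (n : ℕ) (b : K),
      hh u i v ((n : K) * b) = (n : K) ^ r * hh u i v b := by
    intro i v
    by_cases hv : v = FreeMonoid.of i
    · exact ⟨0, fun h => absurd hv h⟩
    · obtain ⟨r, hr⟩ := hh_scale u hu θ χ hχ hc i v hv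
      exact ⟨r, fun _ => hr⟩
  choose R hR using hR
  -- a word that occurs
  have hex : ∃ r : ℕ, ∃ i v, v ≠ FreeMonoid.of i ∧ hh u i v 1 ≠ 0 ∧ R i v = r := by
    by_contra hno
    push Not at hno
    apply h1
    apply ext_ι
    intro i
    rw [AlgEquiv.one_apply, ← sub_eq_zero, u_sub u hu θ χ hχ hc]
    apply Finset.sum_eq_zero
    intro v hv
    rw [mem_Sx] at hv
    exact absurd rfl (hno (R i v) i v hv.2 hv.1)
  classical
  set r := Nat.find hex with hrdef
  obtain ⟨i, v, hv, hv1, hRr⟩ := Nat.find_spec hex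
  rw [← hrdef] at hRr
  have hrmin : ∀ i v, v ≠ FreeMonoid.of i → hh u i v 1 ≠ 0 → r ≤ R i v :=
    fun i v hv hv1 => Nat.find_min' hex ⟨i, v, hv, hv1, rfl⟩
  have hr1 : 1 ≤ r := by rw [← hRr]; exact (hR i v hv).1
  have hadd : ∀ b b', hh u i v (b + b') = hh u i v b + hh u i v b' := by
    intro b b'
    choose p hp using fun a => pd u hu θ χ hχ hc R (fun i v hv => (hR i v hv).2) r hrmin b a
    set P : (FreeAlgebra K (Fin 3))[X] :=
      ∑ w ∈ Sx u i, X ^ (R i w - r) * (C (hh u i w b' • 1) * p (wp w)) with hP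
    have key : ∀ n : ℕ, u ((n : K) * b) (u ((n : K) * b') (ι K i) - ι K i)
        - (u ((n : K) * b') (ι K i) - ι K i) = ((n : K) ^ r * (n : K) ^ r) • ev (n : K) P := by
      intro n
      rw [u_sub u hu θ χ hχ hc, map_sum, ← Finset.sum_sub_distrib, hP, map_sum, Finset.smul_sum]
      apply Finset.sum_congr rfl
      intro w hw
      rw [mem_Sx] at hw
      rw [map_smul, ← smul_sub, hp, (hR i w hw.2).2, ev_X_pow_mul, map_mul, ev_C', smul_mul_assoc,
        one_mul, smul_smul, smul_smul, smul_smul]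
      congr 1
      have : (n : K) ^ (R i w) = (n : K) ^ r * (n : K) ^ (R i w - r) := by
        rw [← pow_add, Nat.add_sub_cancel' (hrmin i w hw.2 hw.1)]
      rw [this]
      ring
    set Q : K[X] := ∑ d ∈ Finset.range (P.natDegree + 1), C (cf v (P.coeff d)) * X ^ d with hQ
    have hQe : ∀ c : K, cf v (ev c P) = Q.eval c := by
      intro c
      rw [ev_apply, map_sum, hQ, eval_finsetSum]
      apply Finset.sum_congr rfl
      intro d _
      rw [map_smul, eval_mul, eval_C, eval_pow, eval_X, smul_eq_mul, mul_comm]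
    set α := hh u i v (b + b') - hh u i v b - hh u i v b' with hα
    have key2 : ∀ n : ℕ, 1 ≤ n → α = (n : K) ^ r * Q.eval (n : K) := by
      intro n hn
      have e := congrArg (cf v) (key n)
      rw [map_smul, hQe, map_sub, map_sub, map_sub, map_sub, ← AlgEquiv.mul_apply, ← hu] at e
      have e3 : cf v (ι K i : FreeAlgebra K (Fin 3)) = 0 := by
        rw [← wp_of, cf_wp, if_neg (Ne.symm hv)]
      rw [e3, sub_zero, ← mul_add] at e
      change hh u i v ((n : K) * (b + b')) - hh u i v ((n : K) * b) - hh u i v ((n : K) * b') = _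
        at e
      rw [(hR i v hv).2, (hR i v hv).2, (hR i v hv).2, ← mul_sub, ← mul_sub, ← hα, hRr,
        smul_eq_mul, mul_assoc] at e
      exact mul_left_cancel₀ (pow_ne_zero _ (by exact_mod_cast (by omega : n ≠ 0))) e
    have hid : C α = X ^ r * Q := by
      apply Polynomial.eq_of_infinite_eval_eq
      have hinf2 : (Set.range fun n : ℕ => ((n + 1 : ℕ) : K)).Infinite :=
        Set.infinite_range_of_injective (fun a b hab => by
          have := Nat.cast_injective hab
          omega)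
      apply hinf2.mono
      rintro _ ⟨n, rfl⟩
      simp only [Set.mem_ofPred_eq, eval_mul, eval_C, eval_pow, eval_X]
      exact key2 (n + 1) (by omega)
    have hα0 : α = 0 := by
      have h0 := congrArg (fun p => p.eval 0) hid
      simp only [eval_C, eval_mul, eval_pow, eval_X] at h0
      rw [h0, zero_pow (by omega : r ≠ 0), zero_mul]
    rw [hα] at hα0
    linear_combination hα0
  have hmul : ∀ a b, hh u i v (a * b) * hh u i v 1 = hh u i v a * hh u i v b := by
    intro a b
    by_cases ha : a = 0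
    · subst ha
      rw [zero_mul, hh_zero u hu, if_neg (Ne.symm hv), zero_mul, zero_mul]
    · obtain ⟨t, ht⟩ := hχ (Units.mk0 a ha)
      have ht' : (χ t : K) = a := by rw [ht]; rfl
      have e1 := hh_smul u θ χ hc i v t b
      have e2 := hh_smul u θ χ hc i v t 1
      rw [ht'] at e1 e2
      rw [mul_one] at e2
      rw [e1, e2]
      ring
  have hz : hh u i v 0 = 0 := by rw [hh_zero u hu, if_neg (Ne.symm hv)]
  refine ⟨i, v, {
    toFun := fun b => hh u i v b / hh u i v 1
    map_one' := div_self hv1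
    map_mul' := fun a b => by
      have := hmul a b
      field_simp
      exact this
    map_zero' := by rw [hz, zero_div]
    map_add' := fun a b => by rw [hadd, add_div] }, fun t => ?_⟩
  show hh u i v (χ t : K) / hh u i v 1 = _
  have e2 := hh_smul u θ χ hc i v t 1
  rw [mul_one] at e2
  rw [e2, mul_div_assoc, div_self hv1, mul_one]

end

end Run7.h270
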