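import Pool.Agent.Run7.h270.TorusAut

set_option autoImplicit false

namespace Run7.h270

open FreeAlgebra Polynomial Module

noncomputable section

variable {K : Type*} [Field K]

/-- The ring automorphism applying a field automorphism to the coefficients. -/
def coefAut (τ : K ≃+* K) : FreeAlgebra K (Fin 3) ≃+* FreeAlgebra K (Fin 3) :=
  (equivMonoidAlgebraFreeMonoid (R := K) (X := Fin 3)).toRingEquiv.trans
    ((MonoidAlgebra.mapRingEquiv (FreeMonoid (Fin 3)) τ).trans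
      (equivMonoidAlgebraFreeMonoid (R := K) (X := Fin 3)).symm.toRingEquiv)

theorem coefAut_ι (τ : K ≃+* K) (i : Fin 3) : coefAut τ (ι K i) = ι K i := by
  simp [coefAut, equivMonoidAlgebraFreeMonoid]

theorem coefAut_algebraMap (τ : K ≃+* K) (c : K) :
    coefAut τ (algebraMap K _ c) = algebraMap K _ (τ c) := by
  simp only [coefAut, equivMonoidAlgebraFreeMonoid]
  simp
  rw [Algebra.algebraMap_eq_smul_one]

/-- The automorphism permuting the variables. -/
def permAut (π : Equiv.Perm (Fin 3)) : FreeAlgebra K (Fin 3) ≃ₐ[K] FreeAlgebra K (Fin 3) :=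
  AlgEquiv.ofAlgHom (lift K (fun i => ι K (π i))) (lift K (fun i => ι K (π.symm i)))
    (by ext i; simp) (by ext i; simp)

theorem permAut_ι (π : Equiv.Perm (Fin 3)) (i : Fin 3) :
    permAut π (ι K i) = ι K (π i) := by simp [permAut]

/-- Conjugation of a `K`-algebra automorphism by a semilinear ring automorphism. -/
def conjR (σ : FreeAlgebra K (Fin 3) ≃+* FreeAlgebra K (Fin 3)) (τ : K ≃+* K)
    (hσ : ∀ c, σ (algebraMap K _ c) = algebraMap K _ (τ c)) :
    (FreeAlgebra K (Fin 3) ≃ₐ[K] FreeAlgebra K (Fin 3)) ≃*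
      (FreeAlgebra K (Fin 3) ≃ₐ[K] FreeAlgebra K (Fin 3)) where
  toFun g := AlgEquiv.ofRingEquiv (f := (σ.symm.trans g.toRingEquiv).trans σ) (fun c => by
    have h1 : σ.symm (algebraMap K _ c) = algebraMap K _ (τ.symm c) := by
      rw [RingEquiv.symm_apply_eq, hσ, RingEquiv.apply_symm_apply]
    simp only [RingEquiv.coe_trans, Function.comp_apply, h1]
    show σ (g (algebraMap K _ (τ.symm c))) = _
    rw [AlgEquiv.commutes, hσ, RingEquiv.apply_symm_apply])
  invFun g := AlgEquiv.ofRingEquiv (f := (σ.trans g.toRingEquiv).trans σ.symm) (fun c => by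
    simp only [RingEquiv.coe_trans, Function.comp_apply, hσ]
    show σ.symm (g (algebraMap K _ (τ c))) = _
    rw [AlgEquiv.commutes, RingEquiv.symm_apply_eq, hσ])
  left_inv g := by
    apply AlgEquiv.ext; intro a
    show σ.symm (σ (g (σ.symm (σ a)))) = g a
    simp
  right_inv g := by
    apply AlgEquiv.ext; intro a
    show σ (σ.symm (g (σ (σ.symm a)))) = g a
    simp
  map_mul' g h := by
    apply AlgEquiv.ext; intro a
    show σ (g (h (σ.symm a))) = σ (g (σ.symm (σ (h (σ.symm a)))))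
    simp

theorem conjR_apply (σ : FreeAlgebra K (Fin 3) ≃+* FreeAlgebra K (Fin 3)) (τ : K ≃+* K)
    (hσ : ∀ c, σ (algebraMap K _ c) = algebraMap K _ (τ c))
    (g : FreeAlgebra K (Fin 3) ≃ₐ[K] FreeAlgebra K (Fin 3)) (a : FreeAlgebra K (Fin 3)) :
    conjR σ τ hσ g a = σ (g (σ.symm a)) := rfl

theorem conjR_symm_apply (σ : FreeAlgebra K (Fin 3) ≃+* FreeAlgebra K (Fin 3)) (τ : K ≃+* K)
    (hσ : ∀ c, σ (algebraMap K _ c) = algebraMap K _ (τ c))
    (g : FreeAlgebra K (Fin 3) ≃ₐ[K] FreeAlgebra K (Fin 3)) (a : FreeAlgebra K (Fin 3)) :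
    (conjR σ τ hσ).symm g a = σ.symm (g (σ a)) := rfl

/-- The diagonal torus. -/
def Diag (K : Type*) [Field K] : Subgroup (FreeAlgebra K (Fin 3) ≃ₐ[K] FreeAlgebra K (Fin 3)) where
  carrier := Set.range diag
  mul_mem' := by
    rintro _ _ ⟨s, rfl⟩ ⟨t, rfl⟩
    exact ⟨s * t, (diag_mul s t).symm⟩
  one_mem' := ⟨1, diag_one⟩
  inv_mem' := by
    rintro _ ⟨s, rfl⟩
    exact ⟨s⁻¹, (diag_inv s).symm⟩

theorem main [CharZero K]
    (Φ : (FreeAlgebra K (Fin 3) ≃ₐ[K] FreeAlgebra K (Fin 3)) ≃*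
      (FreeAlgebra K (Fin 3) ≃ₐ[K] FreeAlgebra K (Fin 3)))
    (h : FreeAlgebra K (Fin 3) ≃ₐ[K] FreeAlgebra K (Fin 3))
    (hD : (Diag K).map Φ.toMonoidHom = (Diag K).map (MulAut.conj h).toMonoidHom) :
    ∃ σ : FreeAlgebra K (Fin 3) ≃+* FreeAlgebra K (Fin 3),
      (∀ g, IsAffine g → ∀ a, Φ g a = σ (g (σ.symm a))) ∧
      (∀ k, ∀ g ∈ TameTwo K k, ∀ a, Φ g a = σ (g (σ.symm a))) ∧
      (∀ k, ∃ l : Ak K k ≃ₗ[K] Ak K k,
        (∀ f a, Φ (elem k f) a = σ (elem k (l f) (σ.symm a))) ∧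
        (∀ g (hg : g ∈ TameTwo K k) (f : Ak K k),
          (l ⟨g f, tameTwo_mem_Ak hg f⟩ : FreeAlgebra K (Fin 3)) = g (l f)) ∧
        (∀ f : Ak K k, (f : FreeAlgebra K (Fin 3)) ∈ Submodule.span K
          {a | ∃ g ∈ TameTwo K k, ∃ i, i ≠ k ∧ a = g (ι K i)} → l f = f)) ∧
      (∀ g, (∃ g' ∈ Tame K, ∀ a, Φ g a = σ (g' (σ.symm a))) ↔ g ∈ Tame K) := by
  -- first normalisation
  set Φ1 := Φ.trans (MulAut.conj h⁻¹) with hΦ1
  have hΦ1a : ∀ g, Φ1 g = h⁻¹ * Φ g * h := fun g => by simp [hΦ1]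
  have hex : ∀ t : Fin 3 → Kˣ, ∃ s : Fin 3 → Kˣ, Φ1 (diag t) = diag s := by
    intro t
    have h1 : Φ (diag t) ∈ (Diag K).map Φ.toMonoidHom := ⟨diag t, ⟨t, rfl⟩, rfl⟩
    rw [hD] at h1
    obtain ⟨_, ⟨s, rfl⟩, hs⟩ := h1
    refine ⟨s, ?_⟩
    have hs' : h * diag s * h⁻¹ = Φ (diag t) := hs
    rw [hΦ1a, ← hs']; group
  choose θ hθ using hex
  have hinj : Function.Injective (diag : (Fin 3 → Kˣ) → (FreeAlgebra K (Fin 3) ≃ₐ[K] _)) := by
    intro s t hst
    funext i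
    have h1 := DFunLike.congr_fun hst (ι K i)
    rw [diag_ι, diag_ι] at h1
    apply Units.ext
    have h2 := congrArg (lift K (fun _ : Fin 3 => (1 : K))) h1
    simpa using h2
  have hsurj : Function.Surjective θ := by
    intro s
    have h1 : h * diag s * h⁻¹ ∈ (Diag K).map (MulAut.conj h).toMonoidHom :=
      ⟨diag s, ⟨s, rfl⟩, rfl⟩
    rw [← hD] at h1
    obtain ⟨_, ⟨t, rfl⟩, ht⟩ := h1
    refine ⟨t, hinj ?_⟩
    have ht' : Φ (diag t) = h * diag s * h⁻¹ := ht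
    rw [← hθ, hΦ1a, ht']; group
  obtain ⟨π, τ, hπτ⟩ := torus_aut Φ1 θ hθ hsurj
  -- second normalisation
  set σ1 : FreeAlgebra K (Fin 3) ≃+* FreeAlgebra K (Fin 3) :=
    (coefAut τ).trans (permAut π).toRingEquiv with hσ1
  have hσ1a : ∀ c, σ1 (algebraMap K _ c) = algebraMap K _ (τ c) := by
    intro c
    show permAut π (coefAut τ (algebraMap K _ c)) = _
    rw [coefAut_algebraMap, AlgEquiv.commutes]
  have hσ1i : ∀ i, σ1 (ι K i) = ι K (π i) := by
    intro i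
    show permAut π (coefAut τ (ι K i)) = _
    rw [coefAut_ι, permAut_ι]
  set Φ2 := Φ1.trans (conjR σ1 τ hσ1a).symm with hΦ2
  have hΦ2d : ∀ t : Fin 3 → Kˣ, Φ2 (diag t) = diag t := by
    intro t
    rw [hΦ2, MulEquiv.trans_apply, MulEquiv.symm_apply_eq, hθ]
    apply ext_ι
    intro i
    obtain ⟨k, rfl⟩ := π.surjective i
    rw [conjR_apply, ← hσ1i, RingEquiv.symm_apply_apply, diag_ι, hσ1i, diag_ι, hπτ,
      Algebra.smul_def, Algebra.smul_def, map_mul, hσ1a, hσ1i]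
  obtain ⟨d, haff, htwo, hell, htame⟩ := main_pointwise Φ2 hΦ2d
  set σ : FreeAlgebra K (Fin 3) ≃+* FreeAlgebra K (Fin 3) :=
    ((diag d).toRingEquiv.trans σ1).trans h.toRingEquiv with hσ
  have hσa : ∀ a, σ a = h (σ1 (diag d a)) := fun a => rfl
  have key : ∀ g g', (diag d)⁻¹ * Φ2 g * diag d = g' →
      ∀ a, Φ g a = σ (g' (σ.symm a)) := by
    intro g g' hgg a
    obtain ⟨b, rfl⟩ := σ.surjective a
    rw [RingEquiv.symm_apply_apply, ← hgg, hσa, hσa]
    simp only [AlgEquiv.mul_apply]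
    rw [apply_inv]
    have h2 : Φ2 g (diag d b) = σ1.symm (Φ1 g (σ1 (diag d b))) := rfl
    rw [h2, RingEquiv.apply_symm_apply, hΦ1a]
    simp only [AlgEquiv.mul_apply]
    rw [apply_inv]
  have key2 : ∀ g g', (∀ a, Φ g a = σ (g' (σ.symm a))) →
      (diag d)⁻¹ * Φ2 g * diag d = g' := by
    intro g g' hgg
    apply AlgEquiv.ext
    intro b
    apply σ.injective
    have h1 := hgg (σ b)
    rw [RingEquiv.symm_apply_apply] at h1
    rw [← h1]
    have h3 := key g _ rfl (σ b)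
    rw [RingEquiv.symm_apply_apply] at h3
    exact h3.symm
  refine ⟨σ, fun g hg => key g g (haff g hg), fun k g hg => key g g (htwo k g hg), fun k => ?_, ?_⟩
  · obtain ⟨l, hl1, hl2, hl3⟩ := hell k
    exact ⟨l, fun f => key _ _ (hl1 f), hl2, hl3⟩
  · intro g
    constructor
    · rintro ⟨g', hg', hgg⟩
      have h1 := key2 g g' hgg
      have h2 : Φ2 g = diag d * g' * (diag d)⁻¹ := by rw [← h1]; group
      have h3 : Φ2 g ∈ (Tame K).map Φ2.toMonoidHom := by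
        rw [htame, h2]
        exact (Tame K).mul_mem ((Tame K).mul_mem (diag_mem_Tame d) hg')
          ((Tame K).inv_mem (diag_mem_Tame d))
      obtain ⟨g2, hg2, he⟩ := h3
      have : g2 = g := Φ2.injective he
      rwa [this] at hg2
    · intro hg
      refine ⟨(diag d)⁻¹ * Φ2 g * diag d, ?_, key g _ rfl⟩
      have h3 : Φ2 g ∈ Tame K := by
        rw [← htame]
        exact ⟨g, hg, rfl⟩
      exact (Tame K).mul_mem ((Tame K).mul_mem ((Tame K).inv_mem (diag_mem_Tame d)) h3)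
        (diag_mem_Tame d)

end

end Run7.h270
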