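import Mathlib

set_option autoImplicit false

namespace Run7.h270

open FreeAlgebra Polynomial

noncomputable section

variable {K : Type*} [Field K]

/-! ### A vanishing lemma for vector valued polynomial functions -/

/-- Two finite combinations of vectors with polynomial coefficients that agree at all scalars
outside a finite set agree at every scalar. -/
theorem poly_ident [Infinite K] {V : Type*} [AddCommGroup V] [Module K V]
    {ι : Type*} (s : Finset ι) (P Q : ι → K[X]) (v w : ι → V) (S : Set K) (hS : S.Finite)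
    (h : ∀ c, c ∉ S → ∑ i ∈ s, (P i).eval c • v i = ∑ i ∈ s, (Q i).eval c • w i) (c : K) :
    ∑ i ∈ s, (P i).eval c • v i = ∑ i ∈ s, (Q i).eval c • w i := by
  rw [← sub_eq_zero, ← Module.forall_dual_apply_eq_zero_iff K]
  intro l
  set q : K[X] := ∑ i ∈ s, P i * C (l (v i)) - ∑ i ∈ s, Q i * C (l (w i)) with hq
  have hev : ∀ c, q.eval c =
      l (∑ i ∈ s, (P i).eval c • v i - ∑ i ∈ s, (Q i).eval c • w i) := by
    intro c
    simp [hq, Polynomial.eval_finsetSum, map_sum]
  have hq0 : q = 0 := by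
    apply Polynomial.eq_zero_of_infinite_isRoot
    apply Set.Infinite.mono (s := Sᶜ)
    · intro c hc
      show q.eval c = 0
      rw [hev, h c hc, sub_self, map_zero]
    · exact hS.infinite_compl
  rw [← hev, hq0, Polynomial.eval_zero]

set_option linter.unusedSectionVars false

variable {σ : Type*} [DecidableEq σ]

/-- The diagonal endomorphism `x_i ↦ t_i x_i`. -/
def diagHom (t : σ → K) : FreeAlgebra K σ →ₐ[K] FreeAlgebra K σ :=
  lift K (fun i => t i • ι K i)

@[simp] theorem diagHom_ι (t : σ → K) (i : σ) : diagHom t (ι K i) = t i • ι K i := by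
  simp [diagHom]

/-- The diagonal automorphism `x_i ↦ t_i x_i`. -/
def diag (t : σ → Kˣ) : FreeAlgebra K σ ≃ₐ[K] FreeAlgebra K σ :=
  AlgEquiv.ofAlgHom (diagHom fun i => (t i : K)) (diagHom fun i => ((t i)⁻¹ : Kˣ))
    (by ext i; simp [smul_smul]) (by ext i; simp [smul_smul])

@[simp] theorem diag_ι (t : σ → Kˣ) (i : σ) : diag t (ι K i) = (t i : K) • ι K i := by
  simp [diag]

theorem ext_ι {g h : FreeAlgebra K σ ≃ₐ[K] FreeAlgebra K σ}
    (H : ∀ i, g (ι K i) = h (ι K i)) : g = h := by
  apply AlgEquiv.coe_toAlgHom_injective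
  apply FreeAlgebra.hom_ext
  funext i
  exact H i

theorem diag_mul (s t : σ → Kˣ) : diag s * diag t = diag (K := K) (s * t) := by
  apply ext_ι; intro i; simp [smul_smul, mul_comm]

theorem diag_one : diag (1 : σ → Kˣ) = (1 : FreeAlgebra K σ ≃ₐ[K] FreeAlgebra K σ) := by
  apply ext_ι; intro i; simp

theorem diag_inv (s : σ → Kˣ) : (diag s)⁻¹ = diag (K := K) (s⁻¹) := by
  rw [inv_eq_iff_mul_eq_one, diag_mul, mul_inv_cancel, diag_one]

/-- The subalgebra generated by the variables other than `x_k`. -/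
def Ak (K : Type*) [Field K] {σ : Type*} (k : σ) : Subalgebra K (FreeAlgebra K σ) :=
  Algebra.adjoin K {a | ∃ i, i ≠ k ∧ a = ι K i}

theorem ι_mem_Ak {k i : σ} (h : i ≠ k) : ι K i ∈ Ak K k :=
  Algebra.subset_adjoin ⟨i, h, rfl⟩

/-- Two algebra homomorphisms that agree on the variables other than `x_k` agree on `Ak k`. -/
theorem Ak_hom_ext {B : Type*} [Semiring B] [Algebra K B] {k : σ}
    {f g : FreeAlgebra K σ →ₐ[K] B} (H : ∀ i, i ≠ k → f (ι K i) = g (ι K i))
    {a : FreeAlgebra K σ} (ha : a ∈ Ak K k) : f a = g a := by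
  have : Set.EqOn f g (Ak K k : Set (FreeAlgebra K σ)) := by
    apply AlgHom.eqOn_adjoin_iff.2
    rintro _ ⟨i, hi, rfl⟩
    exact H i hi
  exact this ha

/-- `x_k ↦ x_k + f`, the other variables are fixed. -/
def elemHom (k : σ) (f : FreeAlgebra K σ) : FreeAlgebra K σ →ₐ[K] FreeAlgebra K σ :=
  lift K (fun i => if i = k then ι K i + f else ι K i)

theorem elemHom_self (k : σ) (f : FreeAlgebra K σ) : elemHom k f (ι K k) = ι K k + f := by
  simp [elemHom]

theorem elemHom_ne {k i : σ} (h : i ≠ k) (f : FreeAlgebra K σ) :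
    elemHom k f (ι K i) = ι K i := by
  simp [elemHom, h]

theorem elemHom_Ak {k : σ} (f : FreeAlgebra K σ) {a : FreeAlgebra K σ} (ha : a ∈ Ak K k) :
    elemHom k f a = a :=
  Ak_hom_ext (g := AlgHom.id K _) (fun i hi => by simp [elemHom_ne hi]) ha

/-- The elementary automorphism `x_k ↦ x_k + f`, `f` in the other variables. -/
def elem (k : σ) (f : Ak K k) : FreeAlgebra K σ ≃ₐ[K] FreeAlgebra K σ :=
  AlgEquiv.ofAlgHom (elemHom k f) (elemHom k (-f))
    (by
      ext i
      by_cases h : i = k
      · subst h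
        simp [elemHom_self, elemHom_Ak]
      · simp [elemHom_ne h])
    (by
      ext i
      by_cases h : i = k
      · subst h
        simp [elemHom_self, elemHom_Ak]
      · simp [elemHom_ne h])

theorem elem_self (k : σ) (f : Ak K k) : elem k f (ι K k) = ι K k + f := by
  simp [elem, elemHom_self]

theorem elem_ne {k i : σ} (h : i ≠ k) (f : Ak K k) : elem k f (ι K i) = ι K i := by
  simp [elem, elemHom_ne h]

theorem elem_Ak {k : σ} (f : Ak K k) {a : FreeAlgebra K σ} (ha : a ∈ Ak K k) :
    elem k f a = a := by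
  simp [elem, elemHom_Ak _ ha]

theorem elem_mul (k : σ) (f g : Ak K k) : elem k f * elem k g = elem k (f + g) := by
  apply ext_ι; intro i
  by_cases h : i = k
  · subst h
    simp only [AlgEquiv.mul_apply, elem_self, map_add, elem_Ak f g.2]
    push_cast
    abel
  · simp [elem_ne h]

theorem elem_zero (k : σ) : elem k (0 : Ak K k) = 1 := by
  apply ext_ι; intro i
  by_cases h : i = k
  · subst h; simp [elem_self]
  · simp [elem_ne h]

theorem elem_injective (k : σ) : Function.Injective (elem (K := K) k) := by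
  intro f g h
  have := congrArg (fun e => e (ι K k)) h
  simp only [elem_self] at this
  exact Subtype.ext (add_left_cancel this)

/-! ### The grading by the degree in `x_k` -/

/-- `x_k ↦ x_k T`, used to read off the degree in `x_k`. -/
def Th (k : σ) : FreeAlgebra K σ →ₐ[K] (FreeAlgebra K σ)[X] :=
  lift K (fun i => if i = k then C (ι K i) * X else C (ι K i))

/-- Evaluation of a polynomial with coefficients in the free algebra at a scalar. -/
def ev (c : K) : (FreeAlgebra K σ)[X] →+* FreeAlgebra K σ :=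
  eval₂RingHom' (RingHom.id _) (algebraMap K _ c) (fun a => (Algebra.commutes c a).symm)

theorem ev_apply (c : K) (p : (FreeAlgebra K σ)[X]) :
    ev c p = ∑ d ∈ Finset.range (p.natDegree + 1), c ^ d • p.coeff d := by
  have : ev c p = p.eval₂ (RingHom.id _) (algebraMap K _ c) := rfl
  rw [this, eval₂_eq_sum_range]
  apply Finset.sum_congr rfl
  intro d _
  rw [RingHom.id_apply, ← map_pow, ← Algebra.commutes, Algebra.smul_def]

/-- `x_k ↦ c x_k` as an endomorphism. -/
def sc (k : σ) (c : K) : FreeAlgebra K σ →ₐ[K] FreeAlgebra K σ :=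
  diagHom (fun i => if i = k then c else 1)

theorem sc_self (k : σ) (c : K) : sc k c (ι K k) = c • ι K k := by simp [sc]

theorem sc_ne {k i : σ} (h : i ≠ k) (c : K) : sc k c (ι K i) = ι K i := by simp [sc, h]

theorem sc_Ak {k : σ} (c : K) {a : FreeAlgebra K σ} (ha : a ∈ Ak K k) : sc k c a = a :=
  Ak_hom_ext (g := AlgHom.id K _) (fun i hi => by simp [sc_ne hi]) ha

theorem sc_mul (k : σ) (c d : K) (a : FreeAlgebra K σ) : sc k c (sc k d a) = sc k (c * d) a := by
  have : (sc k c).comp (sc k d) = sc (K := K) k (c * d) := by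
    ext i
    by_cases h : i = k
    · subst h; simp [sc_self, smul_smul, mul_comm]
    · simp [sc_ne h]
  rw [← this]; rfl

theorem sc_one (k : σ) (a : FreeAlgebra K σ) : sc k (1 : K) a = a := by
  have : sc k (1 : K) = AlgHom.id K (FreeAlgebra K σ) := by
    ext i
    by_cases h : i = k
    · subst h; simp [sc_self]
    · simp [sc_ne h]
  rw [this]; rfl

theorem ev_Th (k : σ) (c : K) (a : FreeAlgebra K σ) : ev c (Th k a) = sc k c a := by
  induction a with
  | grade0 r =>
    rw [AlgHom.commutes, AlgHom.commutes]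
    rw [Polynomial.algebraMap_apply]
    exact eval₂_C _ _
  | grade1 i =>
    by_cases h : i = k
    · subst h
      rw [sc_self]
      simp only [Th, lift_ι_apply, if_true, ev, map_mul]
      simp only [eval₂RingHom', RingHom.coe_mk, MonoidHom.coe_mk, OneHom.coe_mk, eval₂_C,
        eval₂_X, RingHom.id_apply]
      rw [← Algebra.commutes, Algebra.smul_def]
    · rw [sc_ne h]
      simp only [Th, lift_ι_apply, h, if_false]
      exact eval₂_C _ _
  | mul a b ha hb => simp only [map_mul, ha, hb]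
  | add a b ha hb => simp only [map_add, ha, hb]

theorem sc_eq_sum (k : σ) (c : K) (a : FreeAlgebra K σ) :
    sc k c a = ∑ d ∈ Finset.range ((Th k a).natDegree + 1), c ^ d • (Th k a).coeff d := by
  rw [← ev_Th, ev_apply]

/-- Setting `x_k = 0` lands in `Ak k`. -/
theorem sc_zero_mem (k : σ) (a : FreeAlgebra K σ) : sc k (0 : K) a ∈ Ak K k := by
  induction a with
  | grade0 r => rw [AlgHom.commutes]; exact Subalgebra.algebraMap_mem _ _
  | grade1 i =>
    by_cases h : i = k
    · subst h; rw [sc_self, zero_smul]; exact Subalgebra.zero_mem _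
    · rw [sc_ne h]; exact ι_mem_Ak h
  | mul a b ha hb => rw [map_mul]; exact Subalgebra.mul_mem _ ha hb
  | add a b ha hb => rw [map_add]; exact Subalgebra.add_mem _ ha hb

theorem sum_range_zero_pow (N : ℕ) (v : ℕ → FreeAlgebra K σ) :
    ∑ d ∈ Finset.range (N + 1), (0 : K) ^ d • v d = v 0 := by
  rw [Finset.sum_range_succ']
  simp

theorem coeff_zero_mem (k : σ) (a : FreeAlgebra K σ) : (Th k a).coeff 0 ∈ Ak K k := by
  have h := sc_eq_sum k (0 : K) a
  rw [sum_range_zero_pow] at h
  rw [← h]
  exact sc_zero_mem k a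

/-! ### The key lemma -/

/-- If `s_c (a) = ∑ c^d p_d` with top degree `N ≥ 1` then `p_N ≠ 0`. -/
theorem top_ne_zero (k : σ) (a : FreeAlgebra K σ) (h : (Th k a).natDegree ≠ 0) :
    (Th k a).coeff (Th k a).natDegree ≠ 0 := by
  intro h0
  rw [coeff_natDegree, leadingCoeff_eq_zero] at h0
  rw [h0] at h
  simp at h

/-- First half of the key lemma: the variables other than `x_k` are fixed. -/
theorem key_ne [Infinite K] (k : σ) (g : FreeAlgebra K σ ≃ₐ[K] FreeAlgebra K σ)
    (x : FreeAlgebra K σ)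
    (h : ∀ c : K, c ≠ 0 → c ≠ 1 → g (sc k (c / (1 - c)) (g x)) = sc k c (g x)) :
    g x = x := by
  set p := Th k (g x) with hp
  set N := p.natDegree with hN
  -- the identity multiplied by `(1 - c)^N`
  have hF : ∀ c : K, c ∉ ({0, 1} : Set K) →
      ∑ d ∈ Finset.range (N + 1), (X ^ d * (1 - X) ^ (N - d) : K[X]).eval c • g (p.coeff d)
        = ∑ d ∈ Finset.range (N + 1), ((1 - X) ^ N * X ^ d : K[X]).eval c • p.coeff d := by
    intro c hc
    simp only [Set.mem_insert_iff, Set.mem_singleton_iff, not_or] at hc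
    have h1 : (1 - c) ≠ 0 := sub_ne_zero.2 (Ne.symm hc.2)
    have := congrArg (fun a => (1 - c) ^ N • a) (h c hc.1 hc.2)
    rw [sc_eq_sum k (c / (1 - c)) (g x), sc_eq_sum k c (g x), ← hp, ← hN] at this
    rw [map_sum, Finset.smul_sum, Finset.smul_sum] at this
    convert this using 1
    · apply Finset.sum_congr rfl
      intro d hd
      have hd' : d ≤ N := Nat.lt_succ_iff.1 (Finset.mem_range.1 hd)
      rw [map_smul, smul_smul]
      congr 1
      simp only [eval_mul, eval_pow, eval_X, eval_sub, eval_one]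
      rw [div_pow, mul_div_assoc', eq_div_iff (pow_ne_zero _ h1), mul_assoc, ← pow_add,
        Nat.sub_add_cancel hd', mul_comm]
    · apply Finset.sum_congr rfl
      intro d _
      rw [smul_smul]
      simp
  have hG := poly_ident (Finset.range (N + 1)) _ _ _ _ _ (Set.toFinite _) hF
  -- the degree is zero
  have hN0 : N = 0 := by
    by_contra hN0
    have h1 := hG 1
    rw [Finset.sum_range_succ] at h1
    have hz : ∑ d ∈ Finset.range N, (X ^ d * (1 - X) ^ (N - d) : K[X]).eval 1 • g (p.coeff d)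
        = 0 := by
      apply Finset.sum_eq_zero
      intro d hd
      have : N - d ≠ 0 := Nat.sub_ne_zero_of_lt (Finset.mem_range.1 hd)
      simp [this]
    rw [hz] at h1
    have hz2 : ∑ d ∈ Finset.range (N + 1), ((1 - X) ^ N * X ^ d : K[X]).eval 1 • p.coeff d
        = 0 := by
      apply Finset.sum_eq_zero
      intro d hd
      simp [hN0]
    rw [hz2] at h1
    have h2 : g (p.coeff N) = 0 := by simpa using h1
    have h3 : p.coeff N = 0 := by simpa using h2
    exact top_ne_zero k (g x) hN0 h3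
  have hx : ∀ c : K, sc k c (g x) = p.coeff 0 := by
    intro c
    rw [sc_eq_sum k c (g x), ← hp, ← hN, hN0]
    simp
  have hx1 : g x = p.coeff 0 := by rw [← hx 1, sc_one]
  obtain ⟨c, hc⟩ := (Set.toFinite ({0, 1} : Set K)).infinite_compl.nonempty
  simp only [Set.mem_compl_iff, Set.mem_insert_iff, Set.mem_singleton_iff, not_or] at hc
  have h4 := h c hc.1 hc.2
  rw [hx, hx, ← hx1] at h4
  exact g.injective h4

/-- Second half of the key lemma: the variable `x_k`. -/
theorem key_self [Infinite K] (k : σ) (g : FreeAlgebra K σ ≃ₐ[K] FreeAlgebra K σ)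
    (x : FreeAlgebra K σ)
    (h : ∀ c : K, c ≠ 0 → c ≠ 1 →
      (1 - c) • g (sc k (c / (1 - c)) (g x)) = sc k c (g x)) :
    ∃ f ∈ Ak K k, g x = x + f := by
  set p := Th k (g x) with hp
  set N := p.natDegree with hN
  -- the degree is at most one
  have hN1 : N ≤ 1 := by
    by_contra hN2
    rw [not_le] at hN2
    have hF : ∀ c : K, c ∉ ({0, 1} : Set K) →
        ∑ d ∈ Finset.range (N + 1), (X ^ d * (1 - X) ^ (N - d) : K[X]).eval c • g (p.coeff d)
          = ∑ d ∈ Finset.range (N + 1),
            ((1 - X) ^ (N - 1) * X ^ d : K[X]).eval c • p.coeff d := by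
      intro c hc
      simp only [Set.mem_insert_iff, Set.mem_singleton_iff, not_or] at hc
      have h1 : (1 - c) ≠ 0 := sub_ne_zero.2 (Ne.symm hc.2)
      have := congrArg (fun a => (1 - c) ^ (N - 1) • a) (h c hc.1 hc.2)
      rw [sc_eq_sum k (c / (1 - c)) (g x), sc_eq_sum k c (g x), ← hp, ← hN] at this
      rw [map_sum, Finset.smul_sum, Finset.smul_sum, Finset.smul_sum] at this
      convert this using 1
      · apply Finset.sum_congr rfl
        intro d hd
        have hd' : d ≤ N := Nat.lt_succ_iff.1 (Finset.mem_range.1 hd)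
        rw [map_smul, smul_smul, smul_smul]
        congr 1
        simp only [eval_mul, eval_pow, eval_X, eval_sub, eval_one]
        rw [← pow_succ, Nat.sub_add_cancel (by omega), div_pow, mul_div_assoc',
          eq_div_iff (pow_ne_zero _ h1), mul_assoc, ← pow_add,
          Nat.sub_add_cancel hd', mul_comm]
      · apply Finset.sum_congr rfl
        intro d _
        rw [smul_smul]
        simp
    have hG := poly_ident (Finset.range (N + 1)) _ _ _ _ _ (Set.toFinite _) hF
    have h1 := hG 1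
    rw [Finset.sum_range_succ] at h1
    have hz : ∑ d ∈ Finset.range N, (X ^ d * (1 - X) ^ (N - d) : K[X]).eval 1 • g (p.coeff d)
        = 0 := by
      apply Finset.sum_eq_zero
      intro d hd
      have : N - d ≠ 0 := Nat.sub_ne_zero_of_lt (Finset.mem_range.1 hd)
      simp [this]
    rw [hz] at h1
    have hz2 : ∑ d ∈ Finset.range (N + 1),
        ((1 - X) ^ (N - 1) * X ^ d : K[X]).eval 1 • p.coeff d = 0 := by
      apply Finset.sum_eq_zero
      intro d hd
      have : N - 1 ≠ 0 := by omega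
      simp [this]
    rw [hz2] at h1
    have h2 : g (p.coeff N) = 0 := by simpa using h1
    have h3 : p.coeff N = 0 := by simpa using h2
    have hN3 : (Th k (g x)).natDegree ≠ 0 := by
      rw [← hp, ← hN]; omega
    exact top_ne_zero k (g x) hN3 h3
  have hx : ∀ c : K, sc k c (g x) = p.coeff 0 + c • p.coeff 1 := by
    intro c
    rw [sc_eq_sum k c (g x), ← hp, ← hN]
    rcases Nat.le_one_iff_eq_zero_or_eq_one.1 hN1 with h0 | h0
    · have : p.coeff 1 = 0 := by
        apply coeff_eq_zero_of_natDegree_lt; omega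
      rw [h0]
      simp [this]
    · rw [h0]
      simp [Finset.sum_range_succ]
  have hF : ∀ c : K, c ∉ ({0, 1} : Set K) →
      ∑ d ∈ Finset.range 2, (if d = 0 then (1 - X) else X : K[X]).eval c • g (p.coeff d)
        = ∑ d ∈ Finset.range 2, (if d = 0 then 1 else X : K[X]).eval c • p.coeff d := by
    intro c hc
    simp only [Set.mem_insert_iff, Set.mem_singleton_iff, not_or] at hc
    have h1 : (1 - c) ≠ 0 := sub_ne_zero.2 (Ne.symm hc.2)
    have h2 := h c hc.1 hc.2
    rw [hx, hx, map_add, map_smul, smul_add, smul_smul, mul_div_cancel₀ _ h1] at h2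
    simp only [Finset.sum_range_succ, Finset.range_zero, Finset.sum_empty, if_true, one_ne_zero,
      if_false, eval_sub, eval_one, eval_X, zero_add, one_smul]
    exact h2
  have hG := poly_ident (Finset.range 2) _ _ _ _ _ (Set.toFinite _) hF
  have h1 := hG 1
  simp only [Finset.sum_range_succ, Finset.range_zero, Finset.sum_empty, if_true, one_ne_zero,
    if_false, eval_sub, eval_one, eval_X, zero_add, one_smul, sub_self, zero_smul] at h1
  have h5 : g x = p.coeff 0 + p.coeff 1 := by
    have := hx 1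
    rwa [sc_one, one_smul] at this
  have h6 : p.coeff 1 = x := g.injective (by rw [h1, h5])
  refine ⟨p.coeff 0, coeff_zero_mem k (g x), ?_⟩
  rw [h5, h6, add_comm]

/-! ### Images of elementary automorphisms -/

/-- The automorphism `x_k ↦ c x_k`, other variables fixed. -/
def su (k : σ) (c : Kˣ) : FreeAlgebra K σ ≃ₐ[K] FreeAlgebra K σ :=
  diag (fun i => if i = k then c else 1)

theorem su_apply (k : σ) (c : Kˣ) (a : FreeAlgebra K σ) : su k c a = sc k (c : K) a := by
  have : ((su k c : FreeAlgebra K σ ≃ₐ[K] FreeAlgebra K σ) : FreeAlgebra K σ →ₐ[K] _)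
      = sc k (c : K) := by
    ext i
    by_cases h : i = k
    · subst h; simp [su, sc_self]
    · simp [su, sc_ne h, h]
  exact DFunLike.congr_fun this a

theorem su_inv_apply (k : σ) (c : Kˣ) (a : FreeAlgebra K σ) :
    (su k c)⁻¹ a = sc k ((c : K)⁻¹) a := by
  have h : (su (K := K) k c) ((su k c)⁻¹ a) = a := by
    rw [← AlgEquiv.mul_apply, mul_inv_cancel]; rfl
  rw [su_apply] at h
  have h2 := congrArg (sc k ((c : K)⁻¹)) h
  rw [sc_mul, inv_mul_cancel₀ c.ne_zero, sc_one] at h2
  exact h2

theorem conj_su_elem (k : σ) (c : Kˣ) (f : Ak K k) :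
    (su k c)⁻¹ * elem k f * su k c = elem k ((c : K) • f) := by
  apply ext_ι; intro i
  simp only [AlgEquiv.mul_apply, su_apply, su_inv_apply]
  by_cases h : i = k
  · subst h
    rw [sc_self, map_smul, elem_self, map_smul, map_add, sc_self, elem_self, smul_add, smul_smul,
      mul_inv_cancel₀ c.ne_zero, one_smul, sc_Ak _ f.2]
    rfl
  · rw [sc_ne h, elem_ne h, sc_ne h, elem_ne h]

/-- An abstract automorphism fixing the scalings of `x_k` maps the elementary automorphisms
`x_k ↦ x_k + f` to elementary automorphisms of the same kind. -/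
theorem image_elem [Infinite K] (k : σ)
    (Φ : (FreeAlgebra K σ ≃ₐ[K] FreeAlgebra K σ) ≃* (FreeAlgebra K σ ≃ₐ[K] FreeAlgebra K σ))
    (hΦ : ∀ c : Kˣ, Φ (su k c) = su k c) (f : Ak K k) :
    ∃ f' : Ak K k, Φ (elem k f) = elem k f' := by
  set g := Φ (elem k f) with hg
  have hrel : ∀ c : K, c ≠ 0 → c ≠ 1 → ∀ x : FreeAlgebra K σ,
      g (sc k (c / (1 - c)) (g (sc k (1 - c) x))) = sc k c (g x) := by
    intro c h0 h1 x
    have h1' : 1 - c ≠ 0 := sub_ne_zero.2 (Ne.symm h1)
    set u : Kˣ := Units.mk0 c h0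
    set v : Kˣ := Units.mk0 (1 - c) h1'
    have e1 : elem k f = ((su k u)⁻¹ * elem k f * su k u) * ((su k v)⁻¹ * elem k f * su k v) := by
      rw [conj_su_elem, conj_su_elem, elem_mul, ← add_smul]
      simp [u, v]
    have e2 := congrArg Φ e1
    simp only [map_mul, map_inv, hΦ] at e2
    rw [← hg] at e2
    have e3 := DFunLike.congr_fun e2 x
    simp only [AlgEquiv.mul_apply, su_apply, su_inv_apply] at e3
    have e4 := congrArg (sc k c) e3
    rw [sc_mul, sc_mul] at e4
    simp only [u, v, Units.val_mk0] at e4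
    rw [mul_inv_cancel₀ h0, sc_one] at e4
    rw [e4, div_eq_mul_inv]
  obtain ⟨f', hf', hf2⟩ := key_self k g (ι K k) (by
    intro c h0 h1
    have := hrel c h0 h1 (ι K k)
    rwa [sc_self, map_smul, map_smul, map_smul] at this)
  refine ⟨⟨f', hf'⟩, ext_ι fun i => ?_⟩
  by_cases h : i = k
  · subst h
    rw [elem_self, hf2]
  · rw [elem_ne h]
    apply key_ne k g (ι K i)
    intro c h0 h1
    have := hrel c h0 h1 (ι K i)
    rwa [sc_ne h] at this

/-- The linear bijection of `A_k` induced on the elementary automorphisms. -/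
theorem exists_ell [Infinite K] (k : σ)
    (Φ : (FreeAlgebra K σ ≃ₐ[K] FreeAlgebra K σ) ≃* (FreeAlgebra K σ ≃ₐ[K] FreeAlgebra K σ))
    (hΦ : ∀ c : Kˣ, Φ (su k c) = su k c) :
    ∃ l : Ak K k ≃ₗ[K] Ak K k, ∀ f, Φ (elem k f) = elem k (l f) := by
  choose l hl using image_elem k Φ hΦ
  have hΦ' : ∀ c : Kˣ, Φ.symm (su k c) = su k c := fun c => by
    rw [MulEquiv.symm_apply_eq, hΦ]
  choose m hm using image_elem k Φ.symm hΦ'
  have hadd : ∀ f g, l (f + g) = l f + l g := by
    intro f g
    apply elem_injective k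
    rw [← hl, ← elem_mul, map_mul, hl, hl, elem_mul]
  have hsmul : ∀ (c : K) f, l (c • f) = c • l f := by
    intro c f
    by_cases hc : c = 0
    · subst hc
      have h0 : l 0 = 0 := by
        apply elem_injective k
        rw [← hl, elem_zero, map_one]
      rw [zero_smul, zero_smul, h0]
    · apply elem_injective k
      have h1 := conj_su_elem k (Units.mk0 c hc) f
      have h2 := conj_su_elem k (Units.mk0 c hc) (l f)
      rw [Units.val_mk0] at h1 h2
      rw [← hl, ← h1, map_mul, map_mul, map_inv, hΦ, hl, h2]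
  have hml : ∀ f, m (l f) = f := by
    intro f
    apply elem_injective k
    rw [← hm, ← hl, MulEquiv.symm_apply_apply]
  have hlm : ∀ f, l (m f) = f := by
    intro f
    apply elem_injective k
    rw [← hl, ← hm, MulEquiv.apply_symm_apply]
  exact ⟨{ toFun := l, map_add' := hadd, map_smul' := hsmul, invFun := m,
           left_inv := hml, right_inv := hlm }, hl⟩

/-! ### Automorphisms fixing `x_k` and preserving `A_k` -/

/-- The subgroup of the automorphisms that fix `x_k` and map `A_k` onto itself. -/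
def stabK (K : Type*) [Field K] {σ : Type*} (k : σ) :
    Subgroup (FreeAlgebra K σ ≃ₐ[K] FreeAlgebra K σ) where
  carrier := {h | h (ι K k) = ι K k ∧ ∀ a, h a ∈ Ak K k ↔ a ∈ Ak K k}
  mul_mem' := by
    rintro a b ⟨ha, ha'⟩ ⟨hb, hb'⟩
    refine ⟨by rw [AlgEquiv.mul_apply, hb, ha], fun x => ?_⟩
    rw [AlgEquiv.mul_apply, ha', hb']
  one_mem' := ⟨rfl, fun _ => Iff.rfl⟩
  inv_mem' := by
    rintro a ⟨ha, ha'⟩
    have hinv : ∀ x, a (a⁻¹ x) = x := fun x => by
      rw [← AlgEquiv.mul_apply, mul_inv_cancel]; rfl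
    refine ⟨?_, fun x => ?_⟩
    · apply a.injective
      rw [hinv, ha]
    · rw [← ha', hinv]

theorem mem_stabK {k : σ} {h : FreeAlgebra K σ ≃ₐ[K] FreeAlgebra K σ} :
    h ∈ stabK K k ↔ h (ι K k) = ι K k ∧ ∀ a, h a ∈ Ak K k ↔ a ∈ Ak K k := Iff.rfl

theorem apply_inv (a : FreeAlgebra K σ ≃ₐ[K] FreeAlgebra K σ) (x : FreeAlgebra K σ) :
    a (a⁻¹ x) = x := by
  rw [← AlgEquiv.mul_apply, mul_inv_cancel]; rfl

theorem inv_apply' (a : FreeAlgebra K σ ≃ₐ[K] FreeAlgebra K σ) (x : FreeAlgebra K σ) :
    a⁻¹ (a x) = x := by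
  rw [← AlgEquiv.mul_apply, inv_mul_cancel]; rfl

/-- Conjugation of an elementary automorphism by an element of `stabK k`. -/
theorem conj_elem {k : σ} {h : FreeAlgebra K σ ≃ₐ[K] FreeAlgebra K σ} (hh : h ∈ stabK K k)
    (f : Ak K k) : h * elem k f * h⁻¹ = elem k ⟨h f, (hh.2 _).2 f.2⟩ := by
  have hi : h⁻¹ (ι K k) = ι K k := ((stabK K k).inv_mem hh).1
  apply ext_ι; intro i
  simp only [AlgEquiv.mul_apply]
  by_cases hik : i = k
  · subst hik
    rw [hi, elem_self, elem_self, map_add]
    congr 1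
    exact hh.1
  · rw [elem_ne hik, elem_Ak, apply_inv]
    exact (((stabK K k).inv_mem hh).2 _).2 (ι_mem_Ak hik)

/-- `elem i a` with `i ≠ k` and `a ∈ A_k` lies in `stabK k`. -/
theorem elem_mem_stabK {k i : σ} (hik : i ≠ k) (a : Ak K i) (ha : (a : FreeAlgebra K σ) ∈ Ak K k) :
    elem i a ∈ stabK K k := by
  have key : ∀ b : Ak K i, (b : FreeAlgebra K σ) ∈ Ak K k → ∀ x ∈ Ak K k, elem i b x ∈ Ak K k := by
    intro b hb x hx
    have : (Ak K k).map ((elem i b : FreeAlgebra K σ ≃ₐ[K] _) : FreeAlgebra K σ →ₐ[K] _)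
        ≤ Ak K k := by
      rw [Ak, AlgHom.map_adjoin]
      apply Algebra.adjoin_le
      rintro _ ⟨_, ⟨j, hj, rfl⟩, rfl⟩
      show elem i b (ι K j) ∈ Ak K k
      by_cases hji : j = i
      · subst hji
        rw [elem_self]
        exact Subalgebra.add_mem _ (ι_mem_Ak hj) hb
      · rw [elem_ne hji]
        exact ι_mem_Ak hj
    exact this ⟨x, hx, rfl⟩
  have hinv : (elem i a)⁻¹ = elem i (-a) := by
    rw [inv_eq_iff_mul_eq_one, elem_mul, add_neg_cancel, elem_zero]
  refine ⟨elem_ne (Ne.symm hik) a, fun x => ⟨fun hx => ?_, fun hx => key a ha x hx⟩⟩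
  have h2 := key (-a) (by simpa using ha) _ hx
  rwa [← hinv, inv_apply'] at h2

theorem diag_mem_Ak {k : σ} (t : σ → Kˣ) {x : FreeAlgebra K σ} (hx : x ∈ Ak K k) :
    diag t x ∈ Ak K k := by
  have : (Ak K k).map ((diag t : FreeAlgebra K σ ≃ₐ[K] _) : FreeAlgebra K σ →ₐ[K] _)
      ≤ Ak K k := by
    rw [Ak, AlgHom.map_adjoin]
    apply Algebra.adjoin_le
    rintro _ ⟨_, ⟨j, hj, rfl⟩, rfl⟩
    show diag t (ι K j) ∈ Ak K k
    rw [diag_ι]
    exact Subalgebra.smul_mem _ (ι_mem_Ak hj) _
  exact this ⟨x, hx, rfl⟩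

theorem conj_diag_elem (k : σ) (t : σ → Kˣ) (f : Ak K k) :
    diag t * elem k f * (diag t)⁻¹
      = elem k (((t k)⁻¹ : Kˣ) • (⟨diag t f, diag_mem_Ak t f.2⟩ : Ak K k)) := by
  apply ext_ι; intro i
  simp only [AlgEquiv.mul_apply, diag_inv, diag_ι, Pi.inv_apply, map_smul]
  by_cases hik : i = k
  · subst hik
    rw [elem_self, elem_self, map_add, diag_ι, smul_add, smul_smul]
    simp [Units.smul_def]
  · rw [elem_ne hik, elem_ne hik, diag_ι, smul_smul]
    simp

/-! ### Weight vectors -/

/-- Invariance under nonzero scalings of `x_i` gives invariance under `x_i ↦ 0`. -/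
theorem sc_zero_of_forall [Infinite K] (i : σ) (q : FreeAlgebra K σ)
    (h : ∀ c : K, c ≠ 0 → sc i c q = q) : sc i (0 : K) q = q := by
  set p := Th i q with hp
  set N := p.natDegree with hN
  have hF : ∀ c : K, c ∉ ({0} : Set K) →
      ∑ d ∈ Finset.range (N + 1), (X ^ d : K[X]).eval c • p.coeff d
        = ∑ d ∈ Finset.range (N + 1), (1 : K[X]).eval c • (if d = 0 then q else 0) := by
    intro c hc
    simp only [Set.mem_singleton_iff] at hc
    have h1 := h c hc
    rw [sc_eq_sum i c q, ← hp, ← hN] at h1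
    simpa using h1
  have hG := poly_ident (Finset.range (N + 1)) _ _ _ _ _ (Set.toFinite _) hF 0
  rw [sc_eq_sum i 0 q, ← hp, ← hN]
  simpa using hG

/-- `K[X] → A`, `X ↦ x_j`. -/
def toA (j : σ) : K[X] →ₐ[K] FreeAlgebra K σ := Polynomial.aeval (ι K j)

/-- `A → K[X]`, `x_j ↦ X`, the other variables go to `0`. -/
def toP (j : σ) : FreeAlgebra K σ →ₐ[K] K[X] := lift K (fun i => if i = j then X else 0)

theorem toP_toA (j : σ) (P : K[X]) : toP j (toA j P) = P := by
  have : (toP (K := K) j).comp (toA j) = AlgHom.id K K[X] := by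
    ext; simp [toA, toP]
  exact DFunLike.congr_fun this P

theorem toA_mem {j k : σ} (h : j ≠ k) (P : K[X]) : toA j P ∈ Ak K k := by
  have h1 : (Ak K k).val.comp (Polynomial.aeval (⟨ι K j, ι_mem_Ak h⟩ : Ak K k)) = toA j := by
    ext; simp [toA]
  rw [← h1]
  exact Subtype.property _

theorem diag_toA (t : σ → Kˣ) (j : σ) (P : K[X]) :
    diag t (toA j P) = toA j (P.comp (C (t j : K) * X)) := by
  have : ((diag t : FreeAlgebra K σ ≃ₐ[K] _) : FreeAlgebra K σ →ₐ[K] _).comp (toA j)
      = (toA j).comp (Polynomial.aeval (C (t j : K) * X)) := by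
    ext
    simp only [AlgHom.comp_apply, toA, Polynomial.aeval_X, map_mul, Polynomial.aeval_C]
    show diag t (ι K j) = _
    rw [diag_ι, Algebra.smul_def]
  exact DFunLike.congr_fun this P

theorem other (j k : Fin 3) (h : j ≠ k) : ∃ i, i ≠ j ∧ i ≠ k ∧ ∀ l, l = i ∨ l = j ∨ l = k := by
  revert j k; decide

/-- A weight vector of weight `t_j^n` is a multiple of `x_j^n`. -/
theorem eigen [Infinite K] (j : Fin 3) (n : ℕ) (q : FreeAlgebra K (Fin 3))
    (h : ∀ t : Fin 3 → Kˣ, diag t q = ((t j : K) ^ n) • q) : ∃ c : K, q = c • ι K j ^ n := by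
  obtain ⟨k, hkj⟩ : ∃ k : Fin 3, k ≠ j := (by decide : ∀ j : Fin 3, ∃ k, k ≠ j) j
  obtain ⟨i, hij, hik, hall⟩ := other j k hkj.symm
  have hsc : ∀ l : Fin 3, l ≠ j → sc l (0 : K) q = q := by
    intro l hl
    apply sc_zero_of_forall
    intro c hc
    have := h (fun i => if i = l then Units.mk0 c hc else 1)
    rw [show diag (fun i => if i = l then Units.mk0 c hc else 1) q = su l (Units.mk0 c hc) q
      from rfl, su_apply] at this
    simpa [hl.symm] using this
  have hq : q = toA j (toP j q) := by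
    have h1 : (sc i (0 : K)).comp (sc k (0 : K)) = (toA j).comp (toP j) := by
      ext l
      rcases hall l with rfl | rfl | rfl
      · simp [sc_ne hik, sc_self, toP, hij]
      · simp [sc_ne hkj.symm, sc_ne hij.symm, toP, toA]
      · simp [sc_self, toP, hkj]
    have h2 := DFunLike.congr_fun h1 q
    simp only [AlgHom.comp_apply, hsc k hkj, hsc i hij] at h2
    exact h2
  set P := toP j q with hP
  have hcomp : ∀ c : K, c ≠ 0 → P.comp (C c * X) = C (c ^ n) * P := by
    intro c hc
    have h1 := h (fun _ => Units.mk0 c hc)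
    rw [hq, diag_toA] at h1
    have h2 := congrArg (toP j) h1
    rw [toP_toA, map_smul, toP_toA] at h2
    have h3 : P.comp (C c * X) = c ^ n • P := by simpa using h2
    rw [h3, smul_eq_C_mul]
  have hcoef : ∀ m, m ≠ n → P.coeff m = 0 := by
    intro m hm
    by_contra hne
    have hpow : ∀ c : K, c ≠ 0 → c ^ m = c ^ n := by
      intro c hc
      have h1 := congrArg (fun p => p.coeff m) (hcomp c hc)
      simp only [comp_C_mul_X_coeff, coeff_C_mul] at h1
      rw [mul_comm] at h1
      exact mul_right_cancel₀ hne h1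
    have hpoly : (X ^ m - X ^ n : K[X]) = 0 := by
      apply Polynomial.eq_zero_of_infinite_isRoot
      apply Set.Infinite.mono (s := ({0} : Set K)ᶜ)
      · intro c hc
        show (X ^ m - X ^ n : K[X]).eval c = 0
        simp only [Set.mem_compl_iff, Set.mem_singleton_iff] at hc
        simp [hpow c hc]
      · exact (Set.toFinite _).infinite_compl
    have := congrArg (fun p => p.coeff m) (sub_eq_zero.1 hpoly)
    simp [coeff_X_pow, hm] at this
  refine ⟨P.coeff n, ?_⟩
  have hPm : P = C (P.coeff n) * X ^ n := by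
    ext m
    rw [coeff_C_mul, coeff_X_pow]
    by_cases hm : m = n
    · subst hm; simp
    · simp [hm, hcoef m hm]
  rw [hq]
  conv_lhs => rw [hPm]
  simp [toA, Algebra.smul_def]

end

end Run7.h270
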