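import Pool.Agent.Run7.h270.Torus

set_option autoImplicit false
set_option linter.unusedSectionVars false

namespace Run7.h270

open FreeAlgebra Polynomial

noncomputable section

variable {K : Type*} [Field K]

/-- The polynomial `P(x_j)` as an element of `A_k`, `j ≠ k`. -/
def pol {k j : Fin 3} (h : j ≠ k) (P : K[X]) : Ak K k := ⟨toA j P, toA_mem h P⟩

theorem pol_add {k j : Fin 3} (h : j ≠ k) (P Q : K[X]) : pol h (P + Q) = pol h P + pol h Q := by
  apply Subtype.ext; simp [pol]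

theorem pol_smul {k j : Fin 3} (h : j ≠ k) (c : K) (P : K[X]) :
    pol h (C c * P) = c • pol h P := by
  apply Subtype.ext; simp [pol, toA, Algebra.smul_def]

variable (Φ : (FreeAlgebra K (Fin 3) ≃ₐ[K] FreeAlgebra K (Fin 3)) ≃*
  (FreeAlgebra K (Fin 3) ≃ₐ[K] FreeAlgebra K (Fin 3)))

/-- The linear bijections commute with diagonal automorphisms. -/
theorem ell_diag (hΦ : ∀ t : Fin 3 → Kˣ, Φ (diag t) = diag t) (k : Fin 3)
    (l : Ak K k ≃ₗ[K] Ak K k) (hl : ∀ f, Φ (elem k f) = elem k (l f))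
    (t : Fin 3 → Kˣ) (f : Ak K k) :
    l ⟨diag t f, diag_mem_Ak t f.2⟩ = ⟨diag t (l f), diag_mem_Ak t (l f).2⟩ := by
  have h1 := congrArg Φ (conj_diag_elem k t f)
  rw [map_mul, map_mul, map_inv, hΦ, hl, hl, conj_diag_elem] at h1
  have h2 := elem_injective k h1
  rw [Units.smul_def, Units.smul_def, map_smul] at h2
  exact (smul_right_injective _ ((t k)⁻¹).ne_zero h2).symm

theorem ell_pow [Infinite K] (hΦ : ∀ t : Fin 3 → Kˣ, Φ (diag t) = diag t) {j k : Fin 3}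
    (h : j ≠ k) (l : Ak K k ≃ₗ[K] Ak K k) (hl : ∀ f, Φ (elem k f) = elem k (l f)) (n : ℕ) :
    ∃ c : K, (l (pol h (X ^ n)) : FreeAlgebra K (Fin 3)) = c • ι K j ^ n := by
  apply eigen
  intro t
  have h1 := ell_diag Φ hΦ k l hl t (pol h (X ^ n))
  have h2 := congrArg (fun x : Ak K k => (x : FreeAlgebra K (Fin 3))) h1
  simp only at h2
  rw [← h2]
  have h3 : (⟨diag t (pol h (X ^ n) : Ak K k), diag_mem_Ak t (pol h (X ^ n)).2⟩ : Ak K k)
      = ((t j : K) ^ n) • pol h (X ^ n) := by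
    apply Subtype.ext
    simp [pol, toA, _root_.smul_pow]
  rw [h3, map_smul]
  rfl

/-- The augmentation at the origin. -/
def aug : FreeAlgebra K (Fin 3) →ₐ[K] K := lift K (fun _ => 0)

theorem ell_aug [Infinite K] (hΦ : ∀ t : Fin 3 → Kˣ, Φ (diag t) = diag t) {j k : Fin 3}
    (h : j ≠ k) (l : Ak K k ≃ₗ[K] Ak K k) (hl : ∀ f, Φ (elem k f) = elem k (l f))
    (P : K[X]) : aug (l (pol h P) : FreeAlgebra K (Fin 3)) = aug (l 1 : FreeAlgebra K (Fin 3)) *
      P.coeff 0 := by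
  induction P using Polynomial.induction_on' with
  | add P Q hP hQ =>
    rw [pol_add, map_add]
    push_cast
    rw [map_add, hP, hQ, coeff_add, mul_add]
  | monomial n a =>
    rw [← C_mul_X_pow_eq_monomial, pol_smul, map_smul]
    push_cast
    rw [map_smul]
    cases n with
    | zero =>
      have : pol h (X ^ 0 : K[X]) = 1 := by
        apply Subtype.ext; simp [pol]
      rw [this]
      simp [mul_comm]
    | succ n =>
      obtain ⟨c, hc⟩ := ell_pow Φ hΦ h l hl (n + 1)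
      rw [hc]
      simp [aug]

theorem ell_one [Infinite K] (hΦ : ∀ t : Fin 3 → Kˣ, Φ (diag t) = diag t) (k : Fin 3)
    (l : Ak K k ≃ₗ[K] Ak K k) (hl : ∀ f, Φ (elem k f) = elem k (l f)) :
    ∃ u : Kˣ, l 1 = (u : K) • 1 := by
  obtain ⟨j, hj⟩ : ∃ j : Fin 3, j ≠ k := (by decide : ∀ j : Fin 3, ∃ k, k ≠ j) k
  obtain ⟨c, hc⟩ := ell_pow Φ hΦ hj l hl 0
  have h1 : pol hj (X ^ 0 : K[X]) = 1 := by
    apply Subtype.ext; simp [pol]
  rw [h1] at hc
  have h2 : l 1 = c • 1 := by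
    apply Subtype.ext; rw [hc]; simp
  have hc0 : c ≠ 0 := by
    rintro rfl
    rw [zero_smul] at h2
    have h3 : (1 : Ak K k) = 0 := l.injective (by rw [h2, map_zero])
    have h4 := congrArg (fun x : Ak K k => (x : FreeAlgebra K (Fin 3))) h3
    simp at h4
  exact ⟨Units.mk0 c hc0, h2⟩

theorem ell_rel [Infinite K] (hΦ : ∀ t : Fin 3 → Kˣ, Φ (diag t) = diag t) {j k : Fin 3}
    (h : j ≠ k) (l : Ak K k ≃ₗ[K] Ak K k) (hl : ∀ f, Φ (elem k f) = elem k (l f))
    (m : Ak K j ≃ₗ[K] Ak K j) (hm : ∀ f, Φ (elem j f) = elem j (m f))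
    (u v : Kˣ) (hu : l 1 = (u : K) • 1) (hv : m 1 = (v : K) • 1) (n : ℕ) :
    (l (pol h (X ^ n)) : FreeAlgebra K (Fin 3)) = ((u : K) * ((v : K)⁻¹) ^ n) • ι K j ^ n := by
  obtain ⟨c, hc⟩ := ell_pow Φ hΦ h l hl n
  have hs1 : elem j (1 : Ak K j) ∈ stabK K k :=
    elem_mem_stabK h 1 (Subalgebra.one_mem _)
  have hs2 : elem j ((v : K) • (1 : Ak K j)) ∈ stabK K k :=
    elem_mem_stabK h _ (Subalgebra.smul_mem _ (Subalgebra.one_mem _) _)
  have h1 := conj_elem hs1 (pol h (X ^ n))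
  have h2 := congrArg Φ h1
  rw [map_mul, map_mul, map_inv, hl, hl, hm, hv, conj_elem hs2] at h2
  have h3 := elem_injective k h2
  have h4 : (⟨elem j (1 : Ak K j) (pol h (X ^ n) : Ak K k), (hs1.2 _).2 (pol h (X ^ n)).2⟩ :
      Ak K k) = pol h ((X + 1) ^ n) := by
    apply Subtype.ext
    simp [pol, toA, elem_self]
  rw [h4] at h3
  have h5 := congrArg (fun x : Ak K k => aug (x : FreeAlgebra K (Fin 3))) h3
  simp only at h5
  rw [ell_aug Φ hΦ h l hl, hc, hu] at h5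
  have h6 : (c * (v : K) ^ n) = u := by
    simpa [aug, elem_self, coeff_zero_eq_eval_zero] using h5
  rw [hc, ← h6]
  congr 1
  rw [mul_assoc, ← mul_pow, mul_inv_cancel₀ v.ne_zero, one_pow, mul_one]

/-- Affine automorphisms. -/
def IsAffine (g : FreeAlgebra K (Fin 3) ≃ₐ[K] FreeAlgebra K (Fin 3)) : Prop :=
  ∃ (a : Matrix (Fin 3) (Fin 3) K) (b : Fin 3 → K),
    ∀ i, g (ι K i) = ∑ j, a i j • ι K j + algebraMap K _ (b i)

/-- The tame subgroup. -/
def Tame (K : Type*) [Field K] : Subgroup (FreeAlgebra K (Fin 3) ≃ₐ[K] FreeAlgebra K (Fin 3)) :=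
  Subgroup.closure ({g | IsAffine g} ∪ {g | ∃ (k : Fin 3) (f : Ak K k), g = elem k f})

/-- The tame automorphisms of the free algebra `A_k` in two variables, extended by `x_k ↦ x_k`. -/
def TameTwo (K : Type*) [Field K] (k : Fin 3) :
    Subgroup (FreeAlgebra K (Fin 3) ≃ₐ[K] FreeAlgebra K (Fin 3)) :=
  Subgroup.closure ({g | g ∈ stabK K k ∧ IsAffine g} ∪
    {g | g ∈ stabK K k ∧ ∃ (i j : Fin 3) (h : j ≠ i) (P : K[X]), g = elem i (pol h P)})

theorem TameTwo_le_stabK (k : Fin 3) : TameTwo K k ≤ stabK K k := by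
  rw [TameTwo, Subgroup.closure_le]
  rintro g (hg | hg)
  · exact hg.1
  · exact hg.1

/-- The subgroup of fixed elements. -/
def Fx : Subgroup (FreeAlgebra K (Fin 3) ≃ₐ[K] FreeAlgebra K (Fin 3)) :=
  MonoidHom.eqLocus Φ.toMonoidHom (MonoidHom.id _)

theorem mem_Fx {g : FreeAlgebra K (Fin 3) ≃ₐ[K] FreeAlgebra K (Fin 3)} :
    g ∈ Fx Φ ↔ Φ g = g := Iff.rfl

theorem pol_CX {k j : Fin 3} (h : j ≠ k) (c : K) :
    (pol h (C c * X) : FreeAlgebra K (Fin 3)) = c • ι K j := by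
  simp [pol, toA, Algebra.smul_def]

theorem pol_C {k j : Fin 3} (h : j ≠ k) (c : K) :
    (pol h (C c) : FreeAlgebra K (Fin 3)) = algebraMap K _ c := by
  simp [pol, toA]

theorem lin_mem (hΦ : ∀ t : Fin 3 → Kˣ, Φ (diag t) = diag t)
    (hpol : ∀ (j k : Fin 3) (h : j ≠ k) (P : K[X]), Φ (elem k (pol h P)) = elem k (pol h P))
    (M : Matrix (Fin 3) (Fin 3) K) (hM : M.det ≠ 0) :
    ∃ g ∈ Fx Φ, ∀ i, g (ι K i) = ∑ j, M i j • ι K j := by
  refine Matrix.diagonal_transvection_induction_of_det_ne_zero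
    (fun M => ∃ g ∈ Fx Φ, ∀ i, g (ι K i) = ∑ j, M i j • ι K j) M hM ?_ ?_ ?_
  · intro D hD
    rw [Matrix.det_diagonal, Finset.prod_ne_zero_iff] at hD
    refine ⟨diag (fun i => Units.mk0 (D i) (hD i (Finset.mem_univ i))), hΦ _, fun i => ?_⟩
    simp [Matrix.diagonal_apply]
  · intro t
    refine ⟨elem t.i (pol (Ne.symm t.hij) (C t.c * X)), hpol _ _ _ _, fun i => ?_⟩
    simp only [Matrix.TransvectionStruct.toMatrix, Matrix.transvection, Matrix.add_apply,
      add_smul, Finset.sum_add_distrib, Matrix.one_apply, Matrix.single_apply]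
    by_cases h : i = t.i
    · subst h
      rw [elem_self, pol_CX]
      simp
    · rw [elem_ne h]
      simp [Ne.symm h]
  · intro A B hA hB ihA ihB
    obtain ⟨g, hg, hg'⟩ := ihA
    obtain ⟨h, hh, hh'⟩ := ihB
    refine ⟨h * g, (Fx Φ).mul_mem hh hg, fun i => ?_⟩
    rw [AlgEquiv.mul_apply, hg', map_sum]
    simp only [map_smul, hh', Matrix.mul_apply, Finset.smul_sum, Finset.sum_smul, smul_smul]
    rw [Finset.sum_comm]

theorem det_ne_zero_of_affine {g : FreeAlgebra K (Fin 3) ≃ₐ[K] FreeAlgebra K (Fin 3)}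
    (a : Matrix (Fin 3) (Fin 3) K) (b : Fin 3 → K)
    (hg : ∀ i, g (ι K i) = ∑ j, a i j • ι K j + algebraMap K _ (b i)) : a.det ≠ 0 := by
  intro h0
  obtain ⟨v, hv0, hv⟩ := Matrix.exists_vecMul_eq_zero_iff.2 h0
  have h1 : g (∑ i, v i • ι K i - algebraMap K _ (∑ i, v i * b i)) = 0 := by
    rw [map_sub, map_sum, AlgEquiv.commutes]
    simp only [map_smul, hg, smul_add, Finset.smul_sum, smul_smul, Finset.sum_add_distrib]
    rw [Finset.sum_comm]
    have h2 : ∀ j, ∑ i, (v i * a i j) • ι K j = (0 : FreeAlgebra K (Fin 3)) := by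
      intro j
      have := congrFun hv j
      rw [← Finset.sum_smul]
      simp only [Matrix.vecMul, dotProduct, Pi.zero_apply] at this
      rw [this, zero_smul]
    rw [Finset.sum_congr rfl (fun j _ => h2 j)]
    simp [Algebra.smul_def, map_sum, map_mul]
  have h3 : (∑ i, v i • ι K i - algebraMap K _ (∑ i, v i * b i) : FreeAlgebra K (Fin 3)) = 0 := by
    apply g.injective
    rw [h1, map_zero]
  apply hv0
  funext j
  have h4 := congrArg (lift K (fun i => if i = j then (1 : K) else 0)) h3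
  have h5 := congrArg (lift K (fun _ : Fin 3 => (0 : K))) h3
  simp at h4 h5
  rw [h5, sub_zero] at h4
  simpa using h4

theorem affine_mem (hΦ : ∀ t : Fin 3 → Kˣ, Φ (diag t) = diag t)
    (hpol : ∀ (j k : Fin 3) (h : j ≠ k) (P : K[X]), Φ (elem k (pol h P)) = elem k (pol h P))
    {g : FreeAlgebra K (Fin 3) ≃ₐ[K] FreeAlgebra K (Fin 3)} (hg : IsAffine g) : g ∈ Fx Φ := by
  obtain ⟨a, b, hab⟩ := hg
  obtain ⟨h, hh, hh'⟩ := lin_mem Φ hΦ hpol a (det_ne_zero_of_affine a b hab)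
  have hc : ∀ (j k : Fin 3) (hjk : j ≠ k) (c : K), elem k (pol hjk (C c)) ∈ Fx Φ :=
    fun j k hjk c => hpol j k hjk _
  have e : g = h * (elem 0 (pol (by decide : (1 : Fin 3) ≠ 0) (C (b 0))) *
      elem 1 (pol (by decide : (0 : Fin 3) ≠ 1) (C (b 1))) *
      elem 2 (pol (by decide : (0 : Fin 3) ≠ 2) (C (b 2)))) := by
    apply ext_ι
    intro i
    rw [hab]
    simp only [AlgEquiv.mul_apply]
    have e01 : (0 : Fin 3) ≠ 1 := by decide
    have e02 : (0 : Fin 3) ≠ 2 := by decide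
    have e12 : (1 : Fin 3) ≠ 2 := by decide
    have h3 : i = 0 ∨ i = 1 ∨ i = 2 := by revert i; decide
    rcases h3 with rfl | rfl | rfl
    · rw [elem_ne e02, elem_ne e01, elem_self, map_add, hh', pol_C, AlgEquiv.commutes]
    · rw [elem_ne e12, elem_self, map_add, elem_ne e01.symm, map_add, hh', pol_C,
        AlgEquiv.commutes, AlgEquiv.commutes]
    · rw [elem_self, map_add, elem_ne e12.symm, map_add, elem_ne e02.symm, map_add, hh', pol_C,
        AlgEquiv.commutes, AlgEquiv.commutes, AlgEquiv.commutes]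
  rw [e]
  exact (Fx Φ).mul_mem hh ((Fx Φ).mul_mem ((Fx Φ).mul_mem (hc _ _ _ _) (hc _ _ _ _))
    (hc _ _ _ _))

end

end Run7.h270
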