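import Pool.Agent.Run7.h270.Torus2

set_option autoImplicit false

namespace Run7.h270

open FreeAlgebra Polynomial

noncomputable section

variable {K : Type*} [Field K]

/-- Normalisation by a diagonal automorphism: all `P(x_j)` elementary automorphisms are fixed. -/
theorem normalise [Infinite K]
    (Φ : (FreeAlgebra K (Fin 3) ≃ₐ[K] FreeAlgebra K (Fin 3)) ≃*
      (FreeAlgebra K (Fin 3) ≃ₐ[K] FreeAlgebra K (Fin 3)))
    (hΦ : ∀ t : Fin 3 → Kˣ, Φ (diag t) = diag t) :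
    ∃ d : Fin 3 → Kˣ, ∀ (j k : Fin 3) (h : j ≠ k) (P : K[X]),
      (diag d)⁻¹ * Φ (elem k (pol h P)) * diag d = elem k (pol h P) := by
  have hs : ∀ k : Fin 3, ∃ l : Ak K k ≃ₗ[K] Ak K k, ∀ f, Φ (elem k f) = elem k (l f) :=
    fun k => exists_ell k Φ (fun c => hΦ _)
  choose l hl using hs
  choose u hu using fun k => ell_one Φ hΦ k (l k) (hl k)
  refine ⟨fun i => (u i)⁻¹, fun j k h P => ?_⟩
  have hX : ∀ n, (l k (pol h (X ^ n)) : FreeAlgebra K (Fin 3))
      = ((u k : K) * ((u j : K)⁻¹) ^ n) • ι K j ^ n := fun n =>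
    ell_rel Φ hΦ h (l k) (hl k) (l j) (hl j) (u k) (u j) (hu k) (hu j) n
  rw [hl]
  have hconj : ∀ f : Ak K k, (diag (fun i => (u i)⁻¹))⁻¹ * elem k f * diag (fun i => (u i)⁻¹)
      = elem k ((u k)⁻¹ • (⟨diag u f, diag_mem_Ak u f.2⟩ : Ak K k)) := by
    intro f
    have h1 := conj_diag_elem k u f
    have h2 : (diag (fun i => (u i)⁻¹) : FreeAlgebra K (Fin 3) ≃ₐ[K] _) = (diag u)⁻¹ := by
      rw [diag_inv]; rfl
    rw [h2, inv_inv, h1]
  rw [hconj]
  congr 1
  induction P using Polynomial.induction_on' with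
  | add P Q hP hQ =>
    rw [pol_add, map_add]
    conv_rhs => rw [← hP, ← hQ, ← smul_add]
    congr 1
    apply Subtype.ext
    simp
  | monomial n a =>
    rw [← C_mul_X_pow_eq_monomial, pol_smul, map_smul]
    apply Subtype.ext
    simp only [Units.smul_def, Subalgebra.coe_smul, map_smul, hX, map_pow, diag_ι]
    simp only [pol, toA, map_pow, Polynomial.aeval_X, _root_.smul_pow, smul_smul]
    congr 1
    have h1 := (u k).ne_zero
    have h2 := (u j).ne_zero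
    rw [Units.val_inv_eq_inv_val]
    field_simp
    rw [mul_assoc, ← mul_pow, one_div, inv_mul_cancel₀ h2, one_pow, mul_one]

/-- A subset of the subgroup `TameTwo k` acts on `A_k`. -/
theorem tameTwo_mem_Ak {k : Fin 3} {h : FreeAlgebra K (Fin 3) ≃ₐ[K] FreeAlgebra K (Fin 3)}
    (hh : h ∈ TameTwo K k) (f : Ak K k) : h f ∈ Ak K k :=
  ((TameTwo_le_stabK k hh).2 _).2 f.2

theorem elem_mem_Tame (k : Fin 3) (f : Ak K k) : elem k f ∈ Tame K :=
  Subgroup.subset_closure (Or.inr ⟨k, f, rfl⟩)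

theorem diag_isAffine (t : Fin 3 → Kˣ) : IsAffine (diag (K := K) t) :=
  ⟨Matrix.diagonal (fun i => (t i : K)), 0, fun i => by simp [Matrix.diagonal_apply]⟩

theorem diag_mem_Tame (t : Fin 3 → Kˣ) : diag t ∈ Tame K :=
  Subgroup.subset_closure (Or.inl (diag_isAffine t))

/-- The main theorem, with the torus fixed pointwise. -/
theorem main_pointwise [Infinite K]
    (Φ : (FreeAlgebra K (Fin 3) ≃ₐ[K] FreeAlgebra K (Fin 3)) ≃*
      (FreeAlgebra K (Fin 3) ≃ₐ[K] FreeAlgebra K (Fin 3)))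
    (hΦ : ∀ t : Fin 3 → Kˣ, Φ (diag t) = diag t) :
    ∃ d : Fin 3 → Kˣ,
      (∀ g, IsAffine g → (diag d)⁻¹ * Φ g * diag d = g) ∧
      (∀ k, ∀ g ∈ TameTwo K k, (diag d)⁻¹ * Φ g * diag d = g) ∧
      (∀ k, ∃ l : Ak K k ≃ₗ[K] Ak K k,
        (∀ f, (diag d)⁻¹ * Φ (elem k f) * diag d = elem k (l f)) ∧
        (∀ (h : FreeAlgebra K (Fin 3) ≃ₐ[K] FreeAlgebra K (Fin 3)) (hh : h ∈ TameTwo K k)
          (f : Ak K k),
          (l ⟨h f, tameTwo_mem_Ak hh f⟩ : FreeAlgebra K (Fin 3)) = h (l f)) ∧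
        (∀ f : Ak K k, (f : FreeAlgebra K (Fin 3)) ∈ Submodule.span K
          {a | ∃ h ∈ TameTwo K k, ∃ i, i ≠ k ∧ a = h (ι K i)} → l f = f)) ∧
      (Tame K).map Φ.toMonoidHom = Tame K := by
  obtain ⟨d, hd⟩ := normalise Φ hΦ
  set Ψ : (FreeAlgebra K (Fin 3) ≃ₐ[K] FreeAlgebra K (Fin 3)) ≃*
      (FreeAlgebra K (Fin 3) ≃ₐ[K] FreeAlgebra K (Fin 3)) :=
    Φ.trans (MulAut.conj (diag d)⁻¹) with hΨ
  have hΨa : ∀ g, Ψ g = (diag d)⁻¹ * Φ g * diag d := by
    intro g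
    simp [hΨ]
  have hΨd : ∀ t : Fin 3 → Kˣ, Ψ (diag t) = diag t := by
    intro t
    rw [hΨa, hΦ, diag_inv, diag_mul, diag_mul]
    congr 1
    rw [mul_comm, ← mul_assoc, mul_inv_cancel, one_mul]
  have hΨp : ∀ (j k : Fin 3) (h : j ≠ k) (P : K[X]), Ψ (elem k (pol h P)) = elem k (pol h P) :=
    fun j k h P => by rw [hΨa, hd]
  have haff : ∀ g, IsAffine g → g ∈ Fx Ψ := fun g hg => affine_mem Ψ hΨd hΨp hg
  have htwo : ∀ k, TameTwo K k ≤ Fx Ψ := by
    intro k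
    rw [TameTwo, Subgroup.closure_le]
    rintro g (hg | hg)
    · exact haff g hg.2
    · obtain ⟨_, i, j, h, P, rfl⟩ := hg
      exact hΨp _ _ _ _
  have hl : ∀ k, ∃ l : Ak K k ≃ₗ[K] Ak K k, ∀ f, Ψ (elem k f) = elem k (l f) :=
    fun k => exists_ell k Ψ (fun c => hΨd _)
  refine ⟨d, fun g hg => by rw [← hΨa]; exact haff g hg,
    fun k g hg => by rw [← hΨa]; exact htwo k hg, fun k => ?_, ?_⟩
  · obtain ⟨l, hl⟩ := hl k
    have hcomm : ∀ (h : FreeAlgebra K (Fin 3) ≃ₐ[K] FreeAlgebra K (Fin 3)) (hh : h ∈ TameTwo K k)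
          (f : Ak K k),
          (l ⟨h f, tameTwo_mem_Ak hh f⟩ : FreeAlgebra K (Fin 3)) = h (l f) := by
      intro h hh f
      have hs := TameTwo_le_stabK k hh
      have h1 := congrArg Ψ (conj_elem hs f)
      rw [map_mul, map_mul, map_inv, hl, hl, (mem_Fx Ψ).1 (htwo k hh), conj_elem hs] at h1
      have h2 := elem_injective k h1
      exact (congrArg (fun x : Ak K k => (x : FreeAlgebra K (Fin 3))) h2).symm
    refine ⟨l, fun f => by rw [← hΨa, hl], hcomm, ?_⟩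
    -- fixed on the variables
    have hvar : ∀ i (hi : i ≠ k), l ⟨ι K i, ι_mem_Ak hi⟩ = ⟨ι K i, ι_mem_Ak hi⟩ := by
      intro i hi
      apply elem_injective k
      rw [← hl]
      have : (⟨ι K i, ι_mem_Ak hi⟩ : Ak K k) = pol hi X := by
        apply Subtype.ext; simp [pol, toA]
      rw [this, hΨp]
    intro f hf
    obtain ⟨f, hfk⟩ := f
    simp only at hf
    have key : ∀ a ∈ Submodule.span K
        {a : FreeAlgebra K (Fin 3) | ∃ h ∈ TameTwo K k, ∃ i, i ≠ k ∧ a = h (ι K i)},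
        ∃ ha : a ∈ Ak K k, l ⟨a, ha⟩ = ⟨a, ha⟩ := by
      intro a ha
      induction ha using Submodule.span_induction with
      | mem a ha =>
        obtain ⟨h, hh, i, hi, rfl⟩ := ha
        refine ⟨tameTwo_mem_Ak hh ⟨ι K i, ι_mem_Ak hi⟩, ?_⟩
        apply Subtype.ext
        have := hcomm h hh ⟨ι K i, ι_mem_Ak hi⟩
        simp only at this
        rw [this, hvar i hi]
      | zero => exact ⟨Subalgebra.zero_mem _, by
          rw [show (⟨0, Subalgebra.zero_mem _⟩ : Ak K k) = 0 from rfl, map_zero]⟩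
      | add a b _ _ iha ihb =>
        obtain ⟨ha, ha'⟩ := iha
        obtain ⟨hb, hb'⟩ := ihb
        refine ⟨Subalgebra.add_mem _ ha hb, ?_⟩
        rw [show (⟨a + b, Subalgebra.add_mem _ ha hb⟩ : Ak K k) = ⟨a, ha⟩ + ⟨b, hb⟩ from rfl,
          map_add, ha', hb']
      | smul c a _ iha =>
        obtain ⟨ha, ha'⟩ := iha
        refine ⟨Subalgebra.smul_mem _ ha c, ?_⟩
        rw [show (⟨c • a, Subalgebra.smul_mem _ ha c⟩ : Ak K k) = c • ⟨a, ha⟩ from rfl,
          map_smul, ha']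
    obtain ⟨_, h2⟩ := key f hf
    exact h2
  · -- the tame subgroup
    have hT : (Tame K).map Ψ.toMonoidHom ≤ Tame K := by
      rw [Tame, MonoidHom.map_closure, Subgroup.closure_le]
      rintro _ ⟨g, hg | ⟨k, f, rfl⟩, rfl⟩
      · show Ψ g ∈ _
        rw [(mem_Fx Ψ).1 (haff g hg)]
        exact Subgroup.subset_closure (Or.inl hg)
      · obtain ⟨l, hl⟩ := hl k
        show Ψ (elem k f) ∈ _
        rw [hl]
        exact elem_mem_Tame k _
    have hT' : Tame K ≤ (Tame K).map Ψ.toMonoidHom := by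
      conv_lhs => rw [Tame]
      rw [Subgroup.closure_le]
      rintro g (hg | ⟨k, f, rfl⟩)
      · exact ⟨g, Subgroup.subset_closure (Or.inl hg), (mem_Fx Ψ).1 (haff g hg)⟩
      · obtain ⟨l, hl⟩ := hl k
        refine ⟨elem k (l.symm f), elem_mem_Tame k _, ?_⟩
        show Ψ (elem k (l.symm f)) = _
        rw [hl, LinearEquiv.apply_symm_apply]
    have hrel : ∀ g, Φ g = diag d * Ψ g * (diag d)⁻¹ := by
      intro g
      rw [hΨa]; group
    apply le_antisymm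
    · rintro _ ⟨g, hg, rfl⟩
      show Φ g ∈ _
      rw [hrel]
      exact (Tame K).mul_mem ((Tame K).mul_mem (diag_mem_Tame d) (hT ⟨g, hg, rfl⟩))
        ((Tame K).inv_mem (diag_mem_Tame d))
    · intro g hg
      obtain ⟨h, hh, hh'⟩ := hT' ((Tame K).mul_mem ((Tame K).mul_mem
        ((Tame K).inv_mem (diag_mem_Tame d)) hg) (diag_mem_Tame d))
      refine ⟨h, hh, ?_⟩
      show Φ h = g
      have hh2 : Ψ h = (diag d)⁻¹ * g * diag d := hh'
      rw [hrel, hh2]; group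

end

end Run7.h270
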