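import Pool.Agent.Run7.h270.AddWeight

set_option autoImplicit false

namespace Run7.h270

open FreeAlgebra Polynomial Module

noncomputable section

variable {K : Type*} [Field K]

/-- Monomials with integral exponents. -/
def E (s : Fin 3 → ℤ) (y : Fin 3 → Kˣ) : Kˣ := ∏ l, y l ^ s l

theorem E_add (s s' : Fin 3 → ℤ) (y : Fin 3 → Kˣ) : E (s + s') y = E s y * E s' y := by
  simp [E, zpow_add, Finset.prod_mul_distrib]

theorem E_zero (y : Fin 3 → Kˣ) : E 0 y = 1 := by simp [E]

theorem E_zsmul (a : ℤ) (s : Fin 3 → ℤ) (y : Fin 3 → Kˣ) : E (a • s) y = E s y ^ a := by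
  simp only [E, Pi.smul_apply, smul_eq_mul, ← Finset.prod_zpow]
  apply Finset.prod_congr rfl
  intro l _
  rw [mul_comm, zpow_mul]

theorem E_neg (s : Fin 3 → ℤ) (y : Fin 3 → Kˣ) : E (-s) y = (E s y)⁻¹ := by
  simp [E]

theorem E_sum {ι : Type*} (S : Finset ι) (s : ι → Fin 3 → ℤ) (y : Fin 3 → Kˣ) :
    E (∑ k ∈ S, s k) y = ∏ k ∈ S, E (s k) y := by
  classical
  induction S using Finset.induction_on with
  | empty => simp [E_zero]
  | insert a S ha ih => rw [Finset.sum_insert ha, Finset.prod_insert ha, E_add, ih]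

theorem E_single (i : Fin 3) (y : Fin 3 → Kˣ) : E (Pi.single i 1) y = y i := by
  rw [E, Finset.prod_eq_single i]
  · simp
  · intro j _ hj; simp [hj]
  · intro h; exact absurd (Finset.mem_univ i) h

theorem wt_eq_E (y : Fin 3 → Kˣ) (v : FreeMonoid (Fin 3)) :
    wt y v = E (fun l => (v.toList.count l : ℤ)) y := by
  induction v using FreeMonoid.inductionOn' with
  | one => simp [wt, E]
  | of_mul i w ih =>
    have h1 : (fun l => ((FreeMonoid.of i * w).toList.count l : ℤ))
        = Pi.single i 1 + fun l => (w.toList.count l : ℤ) := by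
      funext l
      rw [FreeMonoid.toList_mul, FreeMonoid.toList_of]
      simp only [List.singleton_append, List.count_cons, Pi.add_apply, Pi.single_apply]
      by_cases h : i = l
      · subst h; simp [add_comm]
      · simp [h, Ne.symm h]
    rw [h1, E_add, E_single, ← ih]
    simp [wt]

/-- The element `2` of the multiplicative group. -/
def two (K : Type*) [Field K] [CharZero K] : Kˣ := Units.mk0 (2 : K) two_ne_zero

theorem two_zpow [CharZero K] {a : ℤ} (h : (two K) ^ a = 1) : a = 0 := by
  have h1 : ((2 : K)) ^ a = 1 := by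
    have := congrArg (fun x : Kˣ => (x : K)) h
    simpa [two] using this
  have h2 : (((2 : ℚ) ^ a : ℚ) : K) = ((1 : ℚ) : K) := by
    push_cast
    exact h1
  have h3 : (2 : ℚ) ^ a = 1 := by exact_mod_cast h2
  exact (zpow_eq_one_iff_right₀ (by norm_num) (by norm_num)).1 h3

/-- The key weights. -/
theorem weights [CharZero K]
    (Φ : (FreeAlgebra K (Fin 3) ≃ₐ[K] FreeAlgebra K (Fin 3)) ≃*
      (FreeAlgebra K (Fin 3) ≃ₐ[K] FreeAlgebra K (Fin 3)))
    (θ : (Fin 3 → Kˣ) → (Fin 3 → Kˣ)) (hθ : ∀ t, Φ (diag t) = diag (θ t))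
    {j k : Fin 3} (h : j ≠ k) (n : ℕ) :
    ∃ (s : Fin 3 → ℤ) (τ : K →+* K),
      (∀ t, (E s (θ t) : K) = τ ((t j ^ n * (t k)⁻¹ : Kˣ) : K)) ∧
      (∀ l, -1 ≤ s l) ∧ ((∀ l, s l ≤ 0) → s = 0 ∨ ∃ i, s = -Pi.single i 1) := by
  have hu : ∀ a b : K, Φ (elem k ((a + b) • pol h (X ^ n)))
      = Φ (elem k (a • pol h (X ^ n))) * Φ (elem k (b • pol h (X ^ n))) := by
    intro a b
    rw [← map_mul, elem_mul, add_smul]
  have hχ : Function.Surjective (fun t : Fin 3 → Kˣ => t j ^ n * (t k)⁻¹) := by
    intro c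
    refine ⟨Pi.mulSingle k c⁻¹, ?_⟩
    simp [Pi.mulSingle_eq_of_ne h]
  have hc : ∀ (t : Fin 3 → Kˣ) (b : K),
      diag (θ t) * Φ (elem k (b • pol h (X ^ n))) * (diag (θ t))⁻¹
        = Φ (elem k ((((t j ^ n * (t k)⁻¹ : Kˣ) : K) * b) • pol h (X ^ n))) := by
    intro t b
    rw [← hθ, ← map_inv, ← map_mul, ← map_mul, conj_diag_elem]
    congr 2
    apply Subtype.ext
    simp only [Units.smul_def, Subalgebra.coe_smul, map_smul, pol, toA, map_pow, aeval_X, diag_ι,
      _root_.smul_pow, smul_smul]
    congr 1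
    push_cast
    ring
  have h1 : Φ (elem k ((1 : K) • pol h (X ^ n))) ≠ 1 := by
    intro h1
    rw [← map_one Φ] at h1
    have h2 := Φ.injective h1
    rw [← elem_zero k] at h2
    have h3 := elem_injective k h2
    rw [one_smul] at h3
    have h4 := congrArg (fun x : Ak K k => toP j (x : FreeAlgebra K (Fin 3))) h3
    simp [pol, toP_toA] at h4
  obtain ⟨i, v, τ, hτ⟩ := add_weight (fun b => Φ (elem k (b • pol h (X ^ n)))) hu θ
    (fun t => t j ^ n * (t k)⁻¹) hχ hc h1
  refine ⟨(fun l => (v.toList.count l : ℤ)) - Pi.single i 1, τ, ?_, ?_, ?_⟩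
  · intro t
    rw [hτ, sub_eq_add_neg, E_add, E_neg, E_single, wt_eq_E]
    push_cast
    rfl
  · intro l
    simp only [Pi.sub_apply, Pi.single_apply]
    split_ifs <;> omega
  · intro hle
    by_cases hi : v.toList.count i = 0
    · right
      refine ⟨i, ?_⟩
      funext l
      have hl := hle l
      simp only [Pi.sub_apply, Pi.single_apply, Pi.neg_apply] at hl ⊢
      by_cases hli : l = i
      · subst hli; simp [hi]
      · simp only [hli, if_false, sub_zero] at hl ⊢
        omega
    · left
      funext l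
      have hl := hle l
      simp only [Pi.sub_apply, Pi.single_apply, Pi.zero_apply] at hl ⊢
      by_cases hli : l = i
      · subst hli
        simp only [if_true] at hl ⊢
        omega
      · simp only [hli, if_false, sub_zero] at hl ⊢
        omega

/-- An abstract automorphism preserving the diagonal torus acts on it by a permutation of the
coordinates and a field automorphism. -/
theorem torus_aut [CharZero K]
    (Φ : (FreeAlgebra K (Fin 3) ≃ₐ[K] FreeAlgebra K (Fin 3)) ≃*
      (FreeAlgebra K (Fin 3) ≃ₐ[K] FreeAlgebra K (Fin 3)))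
    (θ : (Fin 3 → Kˣ) → (Fin 3 → Kˣ)) (hθ : ∀ t, Φ (diag t) = diag (θ t))
    (hs : Function.Surjective θ) :
    ∃ (π : Equiv.Perm (Fin 3)) (τ : K ≃+* K), ∀ t k, (θ t (π k) : K) = τ (t k : K) := by
  have hτ2 : ∀ f : K →+* K, f 2 = 2 := fun f => map_ofNat f 2
  choose s τ h1 h2 h3 using fun (j k : Fin 3) (h : j ≠ k) (n : ℕ) => weights Φ θ hθ h n
  choose o ho using (by decide : ∀ j : Fin 3, ∃ k, k ≠ j)
  -- the basic weights
  set S : Fin 3 → Fin 3 → ℤ := fun k => s (o k) k (ho k) 0 with hS
  set T : Fin 3 → K →+* K := fun k => τ (o k) k (ho k) 0 with hT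
  have hST : ∀ k t, (E (S k) (θ t) : K) = T k (((t k)⁻¹ : Kˣ) : K) := by
    intro k t
    have := h1 (o k) k (ho k) 0 t
    simpa [hS, hT] using this
  -- the test elements
  set e : Fin 3 → Fin 3 → Kˣ := fun m => Pi.mulSingle m (two K) with he
  have hval : ∀ k m, E (S k) (θ (e m)) = if k = m then (two K)⁻¹ else 1 := by
    intro k m
    apply Units.ext
    rw [hST]
    by_cases h : k = m
    · subst h
      simp [he, two, hτ2]
    · simp [he, h]
  have hprod : ∀ (a : Fin 3 → ℤ) (m : Fin 3),
      E (∑ k, a k • S k) (θ (e m)) = (two K) ^ (- a m) := by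
    intro a m
    rw [E_sum, Finset.prod_eq_single m]
    · rw [E_zsmul, hval, if_pos rfl, inv_zpow, zpow_neg]
    · intro k _ hk
      rw [E_zsmul, hval, if_neg hk, one_zpow]
    · intro h; exact absurd (Finset.mem_univ m) h
  set M : Matrix (Fin 3) (Fin 3) ℤ := Matrix.of S with hM
  have hvm : ∀ a : Fin 3 → ℤ, Matrix.vecMul a M = ∑ k, a k • S k := by
    intro a
    funext l
    simp [Matrix.vecMul, dotProduct, hM]
  have hdet : M.det ≠ 0 := by
    intro h0
    obtain ⟨a, ha, ha'⟩ := Matrix.exists_vecMul_eq_zero_iff.2 h0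
    apply ha
    funext m
    have e1 := hprod a m
    rw [← hvm, ha', E_zero] at e1
    have := two_zpow e1.symm
    simpa using this
  have hzero : ∀ z : Fin 3 → ℤ, (∀ m, E z (θ (e m)) = 1) → z = 0 := by
    intro z hz
    set a := Matrix.vecMul z M.adjugate with ha
    have e1 : Matrix.vecMul a M = M.det • z := by
      rw [ha, Matrix.vecMul_vecMul, Matrix.adjugate_mul, Matrix.vecMul_smul, Matrix.vecMul_one]
    have ham : a = 0 := by
      funext m
      have e2 := hprod a m
      rw [← hvm, e1, E_zsmul, hz, one_zpow] at e2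
      have := two_zpow e2.symm
      simpa using this
    rw [ham, Matrix.zero_vecMul] at e1
    exact (smul_eq_zero.1 e1.symm).resolve_left hdet
  have hB : ∀ j k (h : j ≠ k) (n : ℕ), s j k h n = S k - (n : ℤ) • S j := by
    intro j k h n
    have : s j k h n - (S k - (n : ℤ) • S j) = 0 := by
      apply hzero
      intro m
      have e1 : E (s j k h n) (θ (e m))
          = (if j = m then (two K) ^ n else 1) * (if k = m then (two K)⁻¹ else 1) := by
        apply Units.ext
        rw [h1]
        by_cases hj : j = m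
        · subst hj
          have hk : k ≠ j := h.symm
          simp [he, two, hk, hτ2]
        · by_cases hk : k = m
          · subst hk
            simp [he, two, Pi.mulSingle_eq_of_ne hj, hj, hτ2]
          · simp [he, Pi.mulSingle_eq_of_ne hj, Pi.mulSingle_eq_of_ne hk, hj, hk]
      rw [sub_eq_add_neg, sub_eq_add_neg, neg_add, neg_neg, E_add, E_add, E_neg, E_zsmul, e1,
        hval, hval]
      by_cases hj : j = m
      · subst hj
        simp [h.symm]
      · by_cases hk : k = m
        · subst hk; simp [h]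
        · simp [hj, hk]
    exact sub_eq_zero.1 this
  have hneg : ∀ j l, S j l ≤ 0 := by
    intro j l
    by_contra hpos
    rw [not_le] at hpos
    have hjk : j ≠ o j := (ho j).symm
    have e1 := h2 j (o j) hjk ((S (o j) l).toNat + 2) l
    rw [hB] at e1
    simp only [Pi.sub_apply, Pi.smul_apply, smul_eq_mul] at e1
    push_cast at e1
    have e2 : S (o j) l ≤ ((S (o j) l).toNat : ℤ) := Int.self_le_toNat _
    nlinarith
  have hshape : ∀ j, ∃ i, S j = -Pi.single i 1 := by
    intro j
    rcases h3 (o j) j (ho j) 0 (hneg j) with h | h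
    · exfalso
      have e1 := hval j j
      have e2 : S j = 0 := h
      rw [e2, E_zero, if_pos rfl] at e1
      have e3 : (two K) ^ (1 : ℤ) = 1 := by
        rw [zpow_one]; exact inv_eq_one.1 e1.symm
      have := two_zpow e3
      omega
    · exact h
  choose p hp using hshape
  have hpT : ∀ k t, (θ t (p k) : K) = T k (t k : K) := by
    intro k t
    have e1 := hST k t
    rw [hp, E_neg, E_single, Units.val_inv_eq_inv_val, Units.val_inv_eq_inv_val, map_inv₀] at e1
    exact inv_injective e1
  have hpinj : Function.Injective p := by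
    intro j k hjk
    by_contra hne
    have e1 := hpT j (e j)
    have e2 := hpT k (e j)
    rw [hjk] at e1
    rw [e1] at e2
    simp [he, two, Pi.mulSingle_eq_of_ne (Ne.symm hne), hτ2] at e2
  have hTeq : ∀ j k, j ≠ k → T j = T k := by
    intro j k h
    have e1 : ∀ t : Fin 3 → Kˣ, τ j k h 1 ((t j * (t k)⁻¹ : Kˣ) : K)
        = (T k (t k : K))⁻¹ * T j (t j : K) := by
      intro t
      have e2 := h1 j k h 1 t
      rw [hB, sub_eq_add_neg, E_add, E_neg, E_zsmul] at e2
      simp only [pow_one, Nat.cast_one, zpow_one] at e2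
      rw [← e2]
      push_cast
      rw [hST, hST]
      push_cast
      rw [map_inv₀, map_inv₀, inv_inv]
    ext x
    by_cases hx : x = 0
    · rw [hx, map_zero, map_zero]
    · have e3 := e1 (Pi.mulSingle j (Units.mk0 x hx))
      have e4 := e1 (Pi.mulSingle k (Units.mk0 x hx))
      simp only [Pi.mulSingle_eq_same, Pi.mulSingle_eq_of_ne h, Pi.mulSingle_eq_of_ne h.symm,
        inv_one, mul_one, one_mul, Units.val_one, map_one, Units.val_mk0,
        Units.val_inv_eq_inv_val, map_inv₀] at e3 e4
      rw [← e3]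
      exact inv_injective e4
  have hTall : ∀ k, T k = T 0 := by
    intro k
    by_cases hk : k = 0
    · rw [hk]
    · exact hTeq k 0 hk
  have hsurj : Function.Surjective (T 0) := by
    intro c
    by_cases hc : c = 0
    · exact ⟨0, by rw [hc, map_zero]⟩
    · obtain ⟨t, ht⟩ := hs (Pi.mulSingle (p 0) (Units.mk0 c hc))
      refine ⟨t 0, ?_⟩
      rw [← hpT, ht]
      simp
  refine ⟨Equiv.ofBijective p (Finite.injective_iff_bijective.1 hpinj),
    RingEquiv.ofBijective (T 0) ⟨(T 0).injective, hsurj⟩, fun t k => ?_⟩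
  show (θ t (p k) : K) = T 0 (t k : K)
  rw [hpT, hTall]

end

end Run7.h270
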