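import Pool.Agent.Run7.h270.Torus3

set_option autoImplicit false

namespace Run7.h270

open FreeAlgebra Polynomial Module

noncomputable section

variable {K : Type*} [Field K]

local instance decW : DecidableEq (FreeMonoid (Fin 3)) := Classical.decEq _

/-- The product of the variables along a word. -/
def wp (w : FreeMonoid (Fin 3)) : FreeAlgebra K (Fin 3) := FreeMonoid.lift (ι K) w

/-- The weight of a word. -/
def wt (t : Fin 3 → Kˣ) (w : FreeMonoid (Fin 3)) : Kˣ := FreeMonoid.lift t w

theorem basis_eq (w : FreeMonoid (Fin 3)) :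
    basisFreeMonoid K (Fin 3) w = wp w := by
  simp [basisFreeMonoid, equivMonoidAlgebraFreeMonoid, wp]

/-- Coefficient of a word. -/
def cf (w : FreeMonoid (Fin 3)) : FreeAlgebra K (Fin 3) →ₗ[K] K :=
  (basisFreeMonoid K (Fin 3)).coord w

theorem cf_wp (w v : FreeMonoid (Fin 3)) : cf w (wp v : FreeAlgebra K (Fin 3)) =
    if v = w then 1 else 0 := by
  rw [cf, ← basis_eq, Basis.coord_apply, Basis.repr_self, Finsupp.single_apply]

theorem wp_of (i : Fin 3) : (wp (FreeMonoid.of i) : FreeAlgebra K (Fin 3)) = ι K i := by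
  simp [wp]

theorem diag_wp (t : Fin 3 → Kˣ) (w : FreeMonoid (Fin 3)) :
    diag t (wp w : FreeAlgebra K (Fin 3)) = (wt t w : K) • wp w := by
  induction w using FreeMonoid.inductionOn' with
  | one => simp [wp, wt]
  | of_mul i w ih =>
    simp only [wp, wt, map_mul, FreeMonoid.lift_eval_of] at ih ⊢
    rw [diag_ι, ih]
    simp [smul_smul, mul_comm]

theorem cf_diag (t : Fin 3 → Kˣ) (w : FreeMonoid (Fin 3)) (a : FreeAlgebra K (Fin 3)) :
    cf w (diag t a) = (wt t w : K) * cf w a := by
  have : (cf w).comp ((diag t : FreeAlgebra K (Fin 3) ≃ₐ[K] _).toLinearMap)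
      = (wt t w : K) • cf (K := K) w := by
    apply (basisFreeMonoid K (Fin 3)).ext
    intro v
    rw [basis_eq]
    simp only [LinearMap.comp_apply, AlgEquiv.toLinearMap_apply, diag_wp, map_smul,
      LinearMap.smul_apply, cf_wp, smul_eq_mul]
    by_cases h : v = w
    · subst h; simp
    · simp [h]
  exact LinearMap.congr_fun this a

theorem ext_cf {a b : FreeAlgebra K (Fin 3)} (h : ∀ w, cf w a = cf w b) : a = b := by
  apply (basisFreeMonoid K (Fin 3)).ext_elem
  intro w
  exact h w

/-- The support. -/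
def supp (a : FreeAlgebra K (Fin 3)) : Finset (FreeMonoid (Fin 3)) :=
  ((basisFreeMonoid K (Fin 3)).repr a).support

theorem mem_supp {a : FreeAlgebra K (Fin 3)} {w : FreeMonoid (Fin 3)} :
    w ∈ supp a ↔ cf w a ≠ 0 := by
  simp [supp, cf, Basis.coord_apply]

theorem eq_sum_supp (a : FreeAlgebra K (Fin 3)) (s : Finset (FreeMonoid (Fin 3)))
    (hs : supp a ⊆ s) : a = ∑ w ∈ s, cf w a • wp w := by
  apply ext_cf
  intro v
  rw [map_sum]
  simp only [map_smul, cf_wp, smul_eq_mul, mul_ite, mul_one, mul_zero, Finset.sum_ite_eq']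
  split_ifs with h
  · rfl
  · by_contra h2
    exact h (hs (mem_supp.2 h2))

end

end Run7.h270
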